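import Mathlib

/-!
Threads: transfinite recursion inside a distributive preorder.
-/

open Cardinal Ordinal Set

namespace Pool.Agent.H98.Polar

/-- `Distrib Q σ`: intersections of `σ`-indexed families of open dense sets are dense. -/
def Distrib (Q : Type) [Preorder Q] (σ : Type) : Prop :=
  ∀ (p : Q) (D : σ → Q → Prop), (∀ i q q', q' ≤ q → D i q → D i q') →
    (∀ i, ∀ q ≤ p, ∃ q' ≤ q, D i q') → ∃ q ≤ p, ∀ i, D i q

section Thread

variable {Q X ι : Type} [Preorder Q] [LinearOrder ι] [WellFoundedLT ι]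

/-- `x` is the first possible value at `i` over the history `h`. -/
def Dec (R : ι → (ι → X) → Q → X → Prop) (i : ι) (h : ι → X) (q : Q) (x : X) : Prop :=
  R i h q x ∧ ∀ y, WellOrderingRel y x → ∀ q' ≤ q, ¬ R i h q' y

variable {R : ι → (ι → X) → Q → X → Prop}

theorem Dec.hered (hR : ∀ i h q q' x, q' ≤ q → R i h q x → R i h q' x)
    {i : ι} {h : ι → X} {q q' : Q} {x : X} (hq : q' ≤ q) (hd : Dec R i h q x) :
    Dec R i h q' x :=
  ⟨hR _ _ _ _ _ hq hd.1, fun y hy r hr => hd.2 y hy r (hr.trans hq)⟩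

theorem Dec.local (hL : ∀ i h h' q x, (∀ j < i, h j = h' j) → R i h q x → R i h' q x)
    {i : ι} {h h' : ι → X} {q : Q} {x : X} (hh : ∀ j < i, h j = h' j) (hd : Dec R i h q x) :
    Dec R i h' q x :=
  ⟨hL _ _ _ _ _ hh hd.1, fun y hy r hr hc =>
    hd.2 y hy r hr (hL _ _ _ _ _ (fun j hj => (hh j hj).symm) hc)⟩

omit [LinearOrder ι] [WellFoundedLT ι] in
theorem Dec.unique {i : ι} {h : ι → X} {q : Q} {x y : X}
    (hx : Dec R i h q x) (hy : Dec R i h q y) : x = y := by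
  rcases trichotomous_of WellOrderingRel x y with hxy | hxy | hxy
  · exact absurd hx.1 (hy.2 x hxy q le_rfl)
  · exact hxy
  · exact absurd hy.1 (hx.2 y hxy q le_rfl)

theorem thread_unique (hL : ∀ i h h' q x, (∀ j < i, h j = h' j) → R i h q x → R i h' q x)
    {i i' : ι} {h h' : ι → X} {q : Q}
    (hi : ∀ j ≤ i, Dec R j h q (h j)) (hi' : ∀ j ≤ i', Dec R j h' q (h' j)) :
    ∀ k, k ≤ i → k ≤ i' → h k = h' k := by
  intro k
  induction k using WellFoundedLT.induction with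
  | ind k ih =>
    intro hk hk'
    have hd := hi k hk
    have hd2 : Dec R k h' q (h k) :=
      hd.local hL (fun j hj => ih j hj (hj.le.trans hk) (hj.le.trans hk'))
    exact hd2.unique (hi' k hk')

theorem glue (hL : ∀ i h h' q x, (∀ j < i, h j = h' j) → R i h q x → R i h' q x)
    {q : Q} (pred : ι → Prop) (hp : ∀ i j, j ≤ i → pred i → pred j)
    (H : ∀ i, pred i → ∃ h : ι → X, ∀ j ≤ i, Dec R j h q (h j)) [Nonempty X] :
    ∃ h : ι → X, ∀ i, pred i → Dec R i h q (h i) := by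
  classical
  choose! g hg using H
  refine ⟨fun i => g i i, fun i hi => ?_⟩
  have := hg i hi i le_rfl
  refine this.local hL (fun j hj => ?_)
  exact thread_unique hL (hg i hi) (hg j (hp i j hj.le hi)) j hj.le le_rfl

theorem exists_dec {p : Q}
    (hS : ∀ i h q, q ≤ p → (∀ j < i, R j h q (h j)) → ∃ q' ≤ q, ∃ x, R i h q' x)
    {i : ι} {h : ι → X} {q : Q} (hq : q ≤ p) (hd : ∀ j < i, Dec R j h q (h j)) :
    ∃ q' ≤ q, ∃ x, Dec R i h q' x := by
  obtain ⟨q', hq', x, hx⟩ := hS i h q hq (fun j hj => (hd j hj).1)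
  have wf : WellFounded (WellOrderingRel (α := X)) := WellOrderingRel.isWellOrder.wf
  let S : Set X := {x | ∃ q' ≤ q, R i h q' x}
  have hne : S.Nonempty := ⟨x, q', hq', hx⟩
  obtain ⟨q₁, hq₁, hx₁⟩ := wf.min_mem S hne
  refine ⟨q₁, hq₁, wf.min S hne, hx₁, fun y hy r hr hc => ?_⟩
  exact wf.not_lt_min S (x := y) ⟨r, hr.trans hq₁, hc⟩ hy

theorem dense_thread {p : Q}
    (hR : ∀ i h q q' x, q' ≤ q → R i h q x → R i h q' x)
    (hL : ∀ i h h' q x, (∀ j < i, h j = h' j) → R i h q x → R i h' q x)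
    (hS : ∀ i h q, q ≤ p → (∀ j < i, R j h q (h j)) → ∃ q' ≤ q, ∃ x, R i h q' x)
    (hD : ∀ i : ι, Distrib Q (Iio i)) [Nonempty X] (i : ι) :
    ∀ q ≤ p, ∃ q' ≤ q, ∃ h : ι → X, ∀ j ≤ i, Dec R j h q' (h j) := by
  classical
  induction i using WellFoundedLT.induction with
  | ind i ih =>
    intro q hq
    obtain ⟨q₁, hq₁, H⟩ := hD i q
      (fun j q' => ∃ h : ι → X, ∀ k ≤ j.1, Dec R k h q' (h k))
      (fun j r r' hr hh => by
        obtain ⟨h, hh⟩ := hh
        exact ⟨h, fun k hk => (hh k hk).hered hR hr⟩)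
      (fun j r hr => ih j.1 j.2 r (hr.trans hq))
    obtain ⟨h, hh⟩ := glue hL (q := q₁) (fun j => j < i) (fun a b hab ha => hab.trans_lt ha)
      (fun j hj => H ⟨j, hj⟩)
    obtain ⟨q₂, hq₂, x, hx⟩ := exists_dec hS (hq₁.trans hq) hh
    refine ⟨q₂, hq₂.trans hq₁, Function.update h i x, fun j hj => ?_⟩
    rcases hj.lt_or_eq with hj | rfl
    · rw [Function.update_of_ne hj.ne]
      refine ((hh j hj).hered hR hq₂).local hL (fun k hk => ?_)
      rw [Function.update_of_ne (hk.trans hj).ne]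
    · rw [Function.update_self]
      refine hx.local hL (fun k hk => ?_)
      rw [Function.update_of_ne hk.ne]

theorem exists_thread {p : Q}
    (hR : ∀ i h q q' x, q' ≤ q → R i h q x → R i h q' x)
    (hL : ∀ i h h' q x, (∀ j < i, h j = h' j) → R i h q x → R i h' q x)
    (hS : ∀ i h q, q ≤ p → (∀ j < i, R j h q (h j)) → ∃ q' ≤ q, ∃ x, R i h q' x)
    (hD : ∀ i : ι, Distrib Q (Iio i)) (hD' : Distrib Q ι) [Nonempty X] :
    ∃ q ≤ p, ∃ h : ι → X, ∀ j, R j h q (h j) := by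
  obtain ⟨q₁, hq₁, H⟩ := hD' p
    (fun j q' => ∃ h : ι → X, ∀ k ≤ j, Dec R k h q' (h k))
    (fun j r r' hr hh => by
      obtain ⟨h, hh⟩ := hh
      exact ⟨h, fun k hk => (hh k hk).hered hR hr⟩)
    (fun j r hr => dense_thread hR hL hS hD j r hr)
  obtain ⟨h, hh⟩ := glue hL (q := q₁) (fun _ => True) (fun _ _ _ _ => trivial)
    (fun j _ => H j)
  exact ⟨q₁, hq₁, h, fun j => (hh j trivial).1⟩

end Thread

end Pool.Agent.H98.Polar
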