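import Pool.Agent.H98.PolarDefs
import Pool.Agent.H98.PolarThread

/-!
Closed posets, the Levy poset, bounding in a regular cardinal.
-/

open Cardinal Ordinal Set

namespace Pool.Agent.H98.Polar

/-- `P` is `< κ`-closed: every chain of size `< κ` has a lower bound. -/
def ClosedPoset (κ : Cardinal.{0}) (P : Type) [Preorder P] : Prop :=
  ∀ C : Set P, #C < κ → IsChain (· ≤ ·) C → ∃ r, ∀ c ∈ C, r ≤ c

theorem distrib_of_closed {κ : Cardinal.{0}} (hκ : ℵ₀ ≤ κ) {P : Type} [Preorder P]
    (hP : ClosedPoset κ P) {σ : Type} (hσ : #σ < κ) : Distrib P σ := by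
  classical
  intro p D hop hde
  -- a well order on `σ`
  obtain ⟨lo, wf⟩ : ∃ lo : LinearOrder σ, @WellFoundedLT σ lo.toLT := exists_wellFoundedLT σ
  let _ := lo
  have _ := wf
  let f : σ → P := WellFoundedLT.fix (motive := fun _ => P) (fun i ih =>
    if h : ∃ r, r ≤ p ∧ D i r ∧ ∀ j (hj : j < i), r ≤ ih j hj then Classical.choose h else p)
  have hf : ∀ i, f i = if h : ∃ r, r ≤ p ∧ D i r ∧ ∀ j, j < i → r ≤ f j
      then Classical.choose h else p := by
    intro i
    have := WellFoundedLT.fix_eq (motive := fun _ => P) (fun i ih =>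
      if h : ∃ r, r ≤ p ∧ D i r ∧ ∀ j (hj : j < i), r ≤ ih j hj then Classical.choose h else p) i
    exact this
  have card_insert : ∀ S : Set P, #S < κ → #(insert p S : Set P) < κ := by
    intro S hS
    exact (mk_insert_le).trans_lt (add_lt_of_lt hκ hS (one_lt_aleph0.trans_le hκ))
  have key : ∀ i, f i ≤ p ∧ D i (f i) ∧ ∀ j, j < i → f i ≤ f j := by
    intro i
    induction i using WellFoundedLT.induction with
    | ind i ih =>
      have hex : ∃ r, r ≤ p ∧ D i r ∧ ∀ j, j < i → r ≤ f j := by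
        obtain ⟨r, hr⟩ := hP (insert p (f '' Iio i))
          (card_insert _ (mk_image_le.trans_lt ((mk_set_le _).trans_lt hσ))) (by
            rintro x (rfl | ⟨a, ha, rfl⟩) y (rfl | ⟨b, hb, rfl⟩) hxy
            · exact absurd rfl hxy
            · exact Or.inr (ih b hb).1
            · exact Or.inl (ih a ha).1
            · rcases lt_trichotomy a b with h | h | h
              · exact Or.inr ((ih b hb).2.2 a h)
              · exact absurd (by rw [h]) hxy
              · exact Or.inl ((ih a ha).2.2 b h))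
        obtain ⟨q, hq, hD⟩ := hde i r (hr p (mem_insert _ _))
        exact ⟨q, hq.trans (hr p (mem_insert _ _)), hD, fun j hj =>
          hq.trans (hr _ (mem_insert_of_mem _ ⟨j, hj, rfl⟩))⟩
      rw [hf i, dif_pos hex]
      exact Classical.choose_spec hex
  obtain ⟨r, hr⟩ := hP (insert p (range f))
    (card_insert _ (mk_range_le.trans_lt hσ)) (by
      rintro x (rfl | ⟨a, rfl⟩) y (rfl | ⟨b, rfl⟩) hxy
      · exact absurd rfl hxy
      · exact Or.inr (key b).1
      · exact Or.inl (key a).1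
      · rcases lt_trichotomy a b with h | h | h
        · exact Or.inr ((key b).2.2 a h)
        · exact absurd (by rw [h]) hxy
        · exact Or.inl ((key a).2.2 b h))
  exact ⟨r, hr p (mem_insert _ _), fun i =>
    hop i _ _ (hr _ (mem_insert_of_mem _ ⟨i, rfl⟩)) (key i).2.1⟩

theorem bounded {κ : Cardinal.{0}} (hreg : κ.IsRegular) {σ : Type} (hσ : #σ < κ)
    (f : σ → κ.ord.ToType) : ∃ γ : κ.ord.ToType, ∀ i, f i < γ := by
  by_contra hcon
  push Not at hcon
  have hcof : IsCofinal (range f) := by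
    intro γ
    obtain ⟨i, hi⟩ := hcon γ
    exact ⟨f i, ⟨i, rfl⟩, hi⟩
  have h1 := Order.cof_le hcof
  rw [cof_toType, hreg.cof_ord] at h1
  exact absurd (h1.trans mk_range_le) (not_le.2 hσ)

theorem levy_closed {κ : Cardinal.{0}} (hreg : κ.IsRegular) (μ : Cardinal.{0}) :
    ClosedPoset κ (Levy κ μ) := by
  classical
  intro C hC hch
  let g : κ.ord.ToType → Option μ.ord.ToType := fun ξ =>
    if h : ∃ a, ∃ c ∈ C, c.1 ξ = some a then some (Classical.choose h) else none
  have hdom : {ξ | g ξ ≠ none} ⊆ ⋃ c : C, {ξ | c.1.1 ξ ≠ none} := by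
    intro ξ hξ
    simp only [mem_ofPred_eq, g] at hξ
    by_cases h : ∃ a, ∃ c ∈ C, c.1 ξ = some a
    · obtain ⟨a, c, hc, hca⟩ := h
      refine mem_iUnion.2 ⟨⟨c, hc⟩, ?_⟩
      simp [hca]
    · rw [dif_neg h] at hξ
      exact absurd rfl hξ
  have hcard : #{ξ | g ξ ≠ none} < κ := by
    refine (mk_le_mk_of_subset hdom).trans_lt ?_
    exact (card_iUnion_lt_iff_forall_of_isRegular hreg hC).2 (fun c => c.1.2)
  refine ⟨⟨g, hcard⟩, fun c hc ξ a hca => ?_⟩
  change g ξ = some a
  have h : ∃ a, ∃ c ∈ C, c.1 ξ = some a := ⟨a, c, hc, hca⟩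
  simp only [g, dif_pos h, Option.some.injEq]
  obtain ⟨c', hc', hc'a⟩ := Classical.choose_spec h
  rcases hch.total hc hc' with hle | hle
  · have := hle ξ _ hc'a
    rw [hca] at this
    exact (Option.some.inj this).symm
  · have := hle ξ _ hca
    rw [hc'a] at this
    exact (Option.some.inj this)

end Pool.Agent.H98.Polar
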