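import Mathlib

/-!
Forcing relation for the polarized relation of order `(kappa, omega)`, the Levy poset, and the
distributivity number `h`.
-/

open Cardinal Ordinal Set

namespace Pool.Agent.H98.Polar

/-! ### The distributivity number -/

/-- `A` is almost contained in `B`: all but finitely many elements of `A` lie in `B`. -/
def AlmostSub (A B : Set ℕ) : Prop := (A \ B).Finite

/-- `D` is a dense open family of infinite subsets of `ω` for almost inclusion. -/
structure DenseOpen (D : Set (Set ℕ)) : Prop where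
  /-- all members are infinite -/
  infinite : ∀ A ∈ D, A.Infinite
  /-- closed under infinite almost subsets -/
  down : ∀ A ∈ D, ∀ B : Set ℕ, B.Infinite → AlmostSub B A → B ∈ D
  /-- every infinite set almost contains a member -/
  dense : ∀ A : Set ℕ, A.Infinite → ∃ B ∈ D, AlmostSub B A

/-- The distributivity number `h`: the least cardinality of a collection of dense open
families of infinite subsets of `ω` with empty intersection. -/
noncomputable def hNumber : Cardinal.{0} :=
  sInf {μ | ∃ C : Set (Set (Set ℕ)), #C = μ ∧ (∀ D ∈ C, DenseOpen D) ∧ ⋂₀ C = ∅}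

/-- `C` is a reaping (unsplit) family: its members are infinite subsets of `ω`, and every
`S ⊆ ω` almost contains, or has almost contained in its complement, a member of `C`. -/
def Reaping (C : Set (Set ℕ)) : Prop :=
  (∀ B ∈ C, B.Infinite) ∧ ∀ S : Set ℕ, ∃ B ∈ C, AlmostSub B S ∨ AlmostSub B Sᶜ

/-- The reaping number `r`: the least cardinality of a reaping family. -/
noncomputable def rNumber : Cardinal.{0} :=
  sInf {μ | ∃ C : Set (Set ℕ), #C = μ ∧ Reaping C}

/-! ### The Levy poset -/

/-- Conditions of `Levy(κ, μ)`: partial functions from `κ` to `μ` (written as functions into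
`Option`) whose domain has size `< κ`. -/
def Levy (κ μ : Cardinal.{0}) : Type :=
  {p : κ.ord.ToType → Option μ.ord.ToType // #{ξ // p ξ ≠ none} < κ}

/-- Conditions are ordered by reverse inclusion: `p ≤ q` iff `p` extends `q`. -/
instance (κ μ : Cardinal.{0}) : Preorder (Levy κ μ) where
  le p q := ∀ ξ a, q.1 ξ = some a → p.1 ξ = some a
  le_refl _ _ _ h := h
  le_trans _ _ _ h₁ h₂ ξ a h := h₁ ξ a (h₂ ξ a h)

/-! ### Names and the forcing relation -/

/-- A `P`-name for a subset of the ground model set `X`: `τ x` is the set of conditions which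
put `x` into the set. -/
abbrev SetName (P X : Type) : Type := X → Set P

variable {P : Type} [Preorder P]

/-- `p ⊩ x ∈ τ`. -/
def fMem {X : Type} (x : X) (τ : SetName P X) : P → Prop :=
  fun p => ∀ q ≤ p, ∃ r ≤ q, ∃ s ∈ τ x, r ≤ s

/-- `p ⊩ ¬ φ`. -/
def fNot (φ : P → Prop) : P → Prop := fun p => ∀ q ≤ p, ¬ φ q

/-- `p ⊩ φ ∧ ψ`. -/
def fAnd (φ ψ : P → Prop) : P → Prop := fun p => φ p ∧ ψ p

/-- `p ⊩ φ ∨ ψ`. -/
def fOr (φ ψ : P → Prop) : P → Prop := fun p => ∀ q ≤ p, ∃ r ≤ q, φ r ∨ ψ r

/-- `p ⊩ φ → ψ`. -/
def fImp (φ ψ : P → Prop) : P → Prop := fun p => ∀ q ≤ p, φ q → ψ q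

/-- `p ⊩ ∀ x, Φ x` (`x` ranges over names, or over the elements of a ground model set). -/
def fAll {ι : Type} (Φ : ι → P → Prop) : P → Prop := fun p => ∀ x, Φ x p

/-- `p ⊩ ∃ x, Φ x` (`x` ranges over names, or over the elements of a ground model set). -/
def fEx {ι : Type} (Φ : ι → P → Prop) : P → Prop := fun p => ∀ q ≤ p, ∃ r ≤ q, ∃ x, Φ x r

/-- A statement about the ground model. -/
def fPure (a : Prop) : P → Prop := fun _ => a

/-- `p ⊩ G` is the graph of a strictly increasing function from `I` to `K`. -/
def fIncreasing {I K : Type} [LinearOrder I] [LinearOrder K] (G : SetName P (I × K)) :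
    P → Prop :=
  fAnd (fAll fun i : I => fEx fun ξ : K => fMem (i, ξ) G)
    (fAll fun i : I => fAll fun j : I => fAll fun ξ : K => fAll fun η : K =>
      fImp (fMem (i, ξ) G) (fImp (fMem (j, η) G) (fPure ((i < j → ξ < η) ∧ (i = j → ξ = η)))))

/-- `p ⊩ B` is an infinite subset of `ω`. -/
def fInfinite (B : SetName P ℕ) : P → Prop :=
  fAll fun m : ℕ => fEx fun n : ℕ => fAnd (fPure (m ≤ n)) (fMem n B)

/-- `p ⊩` there are a strictly increasing `G : β → κ` and an infinite `B ⊆ ω` such that the
colouring `c ⊆ κ × ω` (colour one on `c`, colour zero off `c`) is constantly equal to `ε`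
on `ran G × B`. (The range of `G` is a subset of `κ` of order type `β`, and every subset of
`κ` of order type `β` is such a range.) -/
def fHom (κ : Cardinal.{0}) (β : Ordinal.{0}) (ε : Bool)
    (c : SetName P (κ.ord.ToType × ℕ)) : P → Prop :=
  fEx fun G : SetName P (β.ToType × κ.ord.ToType) => fEx fun B : SetName P ℕ =>
    fAnd (fIncreasing G) (fAnd (fInfinite B)
      (fAll fun i : β.ToType => fAll fun ξ : κ.ord.ToType => fAll fun n : ℕ =>
        fImp (fMem (i, ξ) G) (fImp (fMem n B)
          (if ε then fMem (ξ, n) c else fNot (fMem (ξ, n) c)))))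

/-- `p ⊩ (κ, ω) → (κ α; ω ω)^{1,1}_2`: every colouring of `κ × ω` with colours `0, 1` has a
`0`-homogeneous set `A × B` with `A` of order type `κ`, or a `1`-homogeneous set `A × B` with
`A` of order type `α`, `B` being infinite in both cases. -/
def fUnbalanced (κ : Cardinal.{0}) (α : Ordinal.{0}) : P → Prop :=
  fAll fun c : SetName P (κ.ord.ToType × ℕ) => fOr (fHom κ κ.ord false c) (fHom κ α true c)

end Pool.Agent.H98.Polar
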