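import Pool.Agent.H98.PolarDefs
import Pool.Agent.H98.PolarThread

/-!
The distributivity number: intersections of fewer than `h` dense open sets below a condition.
-/

open Cardinal Ordinal Set

namespace Pool.Agent.H98.Polar

theorem AlmostSub.refl (A : Set ℕ) : AlmostSub A A := by
  unfold AlmostSub
  simp

theorem AlmostSub.of_subset {A B : Set ℕ} (h : A ⊆ B) : AlmostSub A B := by
  unfold AlmostSub
  rw [sdiff_eq_empty.2 h]
  exact finite_empty

theorem AlmostSub.trans {A B C : Set ℕ} (h₁ : AlmostSub A B) (h₂ : AlmostSub B C) :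
    AlmostSub A C := by
  refine (h₁.union h₂).subset ?_
  intro x hx
  by_cases hB : x ∈ B
  · exact Or.inr ⟨hB, hx.2⟩
  · exact Or.inl ⟨hx.1, hB⟩

theorem AlmostSub.inter_infinite {A B : Set ℕ} (h : AlmostSub A B) (hA : A.Infinite) :
    (A ∩ B).Infinite := by
  intro hfin
  refine hA ((hfin.union h).subset ?_)
  intro x hx
  by_cases hB : x ∈ B
  · exact Or.inl ⟨hx, hB⟩
  · exact Or.inr ⟨hx, hB⟩

/-- The preorder of infinite subsets of `ω` under almost inclusion. -/
structure InfSet : Type where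
  /-- the set -/
  s : Set ℕ
  /-- it is infinite -/
  inf : s.Infinite

instance : Preorder InfSet where
  le A B := AlmostSub A.1 B.1
  le_refl A := AlmostSub.refl A.1
  le_trans _ _ _ h₁ h₂ := AlmostSub.trans h₁ h₂

theorem InfSet.le_def (A B : InfSet) : A ≤ B ↔ AlmostSub A.1 B.1 := Iff.rfl

theorem distrib_infSet {σ : Type} (hσ : #σ < hNumber) : Distrib InfSet σ := by
  classical
  intro A D hop hde
  rcases isEmpty_or_nonempty σ with hem | hne
  · exact ⟨A, le_rfl, fun i => (hem.false i).elim⟩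
  -- enumerate `A`
  let e : ℕ → ℕ := Nat.nth (· ∈ A.1)
  have he : StrictMono e := Nat.nth_strictMono A.2
  have heA : ∀ n, e n ∈ A.1 := fun n => Nat.nth_mem_of_infinite A.2 n
  have hsurj : ∀ a ∈ A.1, ∃ n, e n = a := by
    intro a ha
    have := Nat.range_nth_of_infinite (p := (· ∈ A.1)) A.2
    have h2 : a ∈ range (Nat.nth (· ∈ A.1)) := by rw [this]; exact ha
    exact h2
  have hinj := he.injective
  let D' : σ → Set (Set ℕ) := fun i => {B | ∃ hB : (e '' B).Infinite, D i ⟨e '' B, hB⟩}
  have hD' : ∀ i, DenseOpen (D' i) := by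
    intro i
    refine ⟨?_, ?_, ?_⟩
    · rintro B ⟨hB, -⟩
      exact hB.of_image _
    · rintro B ⟨hB, hDB⟩ C hC hCB
      refine ⟨hC.image hinj.injOn, ?_⟩
      refine hop i _ _ ?_ hDB
      change (e '' C \ e '' B).Finite
      rw [← image_sdiff hinj]
      exact Set.Finite.image _ hCB
    · intro C hC
      have hCi : (e '' C).Infinite := hC.image hinj.injOn
      have hle : (⟨e '' C, hCi⟩ : InfSet) ≤ A :=
        AlmostSub.of_subset (by rintro _ ⟨n, -, rfl⟩; exact heA n)
      obtain ⟨B, hBC, hDB⟩ := hde i ⟨e '' C, hCi⟩ hle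
      have hBi : (B.1 ∩ e '' C).Infinite := hBC.inter_infinite B.2
      have himg : e '' (e ⁻¹' (B.1 ∩ e '' C)) = B.1 ∩ e '' C := by
        rw [image_preimage_eq_inter_range]
        refine inter_eq_left.2 ?_
        rintro _ ⟨-, n, -, rfl⟩
        exact ⟨n, rfl⟩
      refine ⟨e ⁻¹' (B.1 ∩ e '' C), ⟨by rw [himg]; exact hBi, ?_⟩, ?_⟩
      · refine hop i _ _ ?_ hDB
        change AlmostSub (e '' (e ⁻¹' (B.1 ∩ e '' C))) B.1
        rw [himg]
        exact AlmostSub.of_subset inter_subset_left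
      · refine AlmostSub.of_subset ?_
        rintro n ⟨-, m, hm, hmn⟩
        rw [← hinj hmn]
        exact hm
  have hnot : #(range D') ∉ {μ : Cardinal.{0} | ∃ C : Set (Set (Set ℕ)), #C = μ ∧
      (∀ D ∈ C, DenseOpen D) ∧ ⋂₀ C = ∅} := by
    refine notMem_of_lt_csInf' ?_
    exact mk_range_le.trans_lt hσ
  have hinter : (⋂₀ (range D')).Nonempty := by
    by_contra hemp
    rw [not_nonempty_iff_eq_empty] at hemp
    exact hnot ⟨range D', rfl, by rintro _ ⟨i, rfl⟩; exact hD' i, hemp⟩
  obtain ⟨B, hB⟩ := hinter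
  have hB' : ∀ i, B ∈ D' i := fun i => hB _ ⟨i, rfl⟩
  obtain ⟨hBi, -⟩ := hB' (Classical.arbitrary σ)
  refine ⟨⟨e '' B, hBi⟩, AlmostSub.of_subset ?_, fun i => ?_⟩
  · rintro _ ⟨n, -, rfl⟩
    exact heA n
  · obtain ⟨_, h⟩ := hB' i
    exact h

/-- A countable decreasing sequence of infinite sets has an infinite pseudointersection. -/
theorem pseudo (A : ℕ → Set ℕ) (hA : ∀ n, (A n).Infinite) (hdec : ∀ n, A (n + 1) ⊆ A n) :
    ∃ B : Set ℕ, B.Infinite ∧ ∀ n, AlmostSub B (A n) := by
  classical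
  have hanti : ∀ m n, m ≤ n → A n ⊆ A m := by
    intro m n hmn
    induction n, hmn using Nat.le_induction with
    | base => exact subset_rfl
    | succ n _ ih => exact (hdec n).trans ih
  have hex : ∀ (n m : ℕ), ∃ b ∈ A n, m < b := fun n m => (hA n).exists_gt m
  choose g hg hgm using hex
  let b : ℕ → ℕ := fun n => Nat.rec (g 0 0) (fun n prev => g (n + 1) prev) n
  have hb : ∀ n, b (n + 1) = g (n + 1) (b n) := fun n => rfl
  have hmono : StrictMono b := strictMono_nat_of_lt_succ (fun n => by rw [hb]; exact hgm _ _)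
  have hmem : ∀ n, b n ∈ A n := by
    intro n
    cases n with
    | zero => exact hg 0 0
    | succ n => rw [hb]; exact hg _ _
  refine ⟨range b, infinite_range_of_injective hmono.injective, fun n => ?_⟩
  refine ((finite_Iio n).image b).subset ?_
  rintro _ ⟨⟨k, rfl⟩, hk⟩
  refine ⟨k, ?_, rfl⟩
  by_contra hcon
  simp only [mem_Iio, not_lt] at hcon
  exact hk (hanti n k hcon (hmem k))

theorem aleph0_lt_hNumber : ℵ₀ < hNumber := by
  classical
  by_contra hcon
  rw [not_lt] at hcon
  -- the defining set is nonempty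
  have hne : {μ : Cardinal.{0} | ∃ C : Set (Set (Set ℕ)), #C = μ ∧
      (∀ D ∈ C, DenseOpen D) ∧ ⋂₀ C = ∅}.Nonempty := by
    let F : InfSet → Set (Set ℕ) := fun A => {B | B.Infinite ∧ ¬ AlmostSub A.1 B}
    refine ⟨#(range F), range F, rfl, ?_, ?_⟩
    · rintro _ ⟨A, rfl⟩
      refine ⟨fun B hB => hB.1, ?_, ?_⟩
      · rintro B ⟨-, hB⟩ C hC hCB
        exact ⟨hC, fun h => hB (h.trans hCB)⟩
      · intro X hX
        -- split `X` into two infinite pieces
        let e : ℕ → ℕ := Nat.nth (· ∈ X)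
        have he : StrictMono e := Nat.nth_strictMono hX
        have heX : ∀ n, e n ∈ X := fun n => Nat.nth_mem_of_infinite hX n
        let X0 := range (fun n => e (2 * n))
        let X1 := range (fun n => e (2 * n + 1))
        have h0 : X0.Infinite := infinite_range_of_injective (fun a b hab => by
          have := he.injective hab; omega)
        have h1 : X1.Infinite := infinite_range_of_injective (fun a b hab => by
          have := he.injective hab; omega)
        have hdisj : Disjoint X0 X1 := by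
          rw [Set.disjoint_left]
          rintro _ ⟨a, rfl⟩ ⟨b, hb⟩
          have := he.injective hb
          omega
        by_cases hA0 : AlmostSub A.1 X0
        · refine ⟨X1, ⟨h1, fun hA1 => ?_⟩, AlmostSub.of_subset ?_⟩
          · refine A.2 ((hA0.union hA1).subset ?_)
            intro x hx
            by_cases hx0 : x ∈ X0
            · exact Or.inr ⟨hx, fun hx1 => Set.disjoint_left.1 hdisj hx0 hx1⟩
            · exact Or.inl ⟨hx, hx0⟩
          · rintro _ ⟨n, rfl⟩
            exact heX _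
        · refine ⟨X0, ⟨h0, hA0⟩, AlmostSub.of_subset ?_⟩
          rintro _ ⟨n, rfl⟩
          exact heX _
    · rw [eq_empty_iff_forall_notMem]
      intro B hB
      have hBi : B.Infinite := (hB (F ⟨univ, infinite_univ⟩) ⟨_, rfl⟩).1
      exact (hB (F ⟨B, hBi⟩) ⟨_, rfl⟩).2 (AlmostSub.refl B)
  obtain ⟨C, hCcard, hCopen, hCinter⟩ := csInf_mem hne
  change #C = hNumber at hCcard
  have hCne : C.Nonempty := by
    rcases C.eq_empty_or_nonempty with h | h
    · rw [h, sInter_empty] at hCinter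
      exact absurd hCinter univ_nonempty.ne_empty
    · exact h
  have hCc : C.Countable := by
    rw [← le_aleph0_iff_set_countable, hCcard]
    exact hcon
  obtain ⟨D, rfl⟩ := hCc.exists_eq_range hCne
  have hDo : ∀ n, DenseOpen (D n) := fun n => hCopen _ ⟨n, rfl⟩
  have hex : ∀ (n : ℕ) (A : InfSet), ∃ B : InfSet, B.1 ∈ D n ∧ B.1 ⊆ A.1 := by
    intro n A
    obtain ⟨B, hB, hBA⟩ := (hDo n).dense A.1 A.2
    have hBi := (hDo n).infinite B hB
    exact ⟨⟨B ∩ A.1, hBA.inter_infinite hBi⟩,
      (hDo n).down B hB _ (hBA.inter_infinite hBi) (AlmostSub.of_subset inter_subset_left),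
      inter_subset_right⟩
  choose g hg hgs using hex
  let A : ℕ → InfSet := fun n =>
    Nat.rec (g 0 ⟨univ, infinite_univ⟩) (fun n prev => g (n + 1) prev) n
  have hA : ∀ n, A (n + 1) = g (n + 1) (A n) := fun n => rfl
  have hmem : ∀ n, (A n).1 ∈ D n := by
    intro n
    cases n with
    | zero => exact hg 0 _
    | succ n => rw [hA]; exact hg _ _
  obtain ⟨B, hB, hBA⟩ := pseudo (fun n => (A n).1) (fun n => (A n).2)
    (fun n => by rw [hA]; exact hgs _ _)
  have : B ∈ ⋂₀ (range D) := by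
    rintro _ ⟨n, rfl⟩
    exact (hDo n).down _ (hmem n) B hB (hBA n)
  rw [hCinter] at this
  exact this

/-- Fewer than `h` functions are dominated along a subset of every infinite set. -/
theorem dominate {σ : Type} (hσ : #σ < hNumber) (A : Set ℕ) (hA : A.Infinite)
    (g : σ → ℕ → ℕ) :
    ∃ B : Set ℕ, B.Infinite ∧ B ⊆ A ∧
      ∀ i, ∃ N, ∀ b ∈ B, N ≤ b → ∀ b' ∈ B, b < b' → g i b < b' := by
  classical
  let D : σ → InfSet → Prop := fun i B =>
    ∃ N, ∀ b ∈ B.1, N ≤ b → ∀ b' ∈ B.1, b < b' → g i b < b'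
  have hop : ∀ i q q', q' ≤ q → D i q → D i q' := by
    rintro i B B' hle ⟨N, hN⟩
    obtain ⟨M, hM⟩ := hle.bddAbove
    refine ⟨max N (M + 1), fun b hb hNb b' hb' hbb' => ?_⟩
    have h1 : b ∈ B.1 := by
      by_contra hcon
      have := hM ⟨hb, hcon⟩
      have h2 := le_of_max_le_right hNb
      omega
    have h2 : b' ∈ B.1 := by
      by_contra hcon
      have := hM ⟨hb', hcon⟩
      have h2 := le_of_max_le_right hNb
      omega
    exact hN b h1 (le_of_max_le_left hNb) b' h2 hbb'
  obtain ⟨B, hBA, hB⟩ := distrib_infSet hσ ⟨A, hA⟩ D hop (by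
    intro i C _
    have hex : ∀ m : ℕ, ∃ b ∈ C.1, m < b := fun m => C.2.exists_gt m
    choose f hf hfm using hex
    let b : ℕ → ℕ := fun n => Nat.rec (f 0) (fun _ prev => f (max prev (g i prev))) n
    have hb : ∀ n, b (n + 1) = f (max (b n) (g i (b n))) := fun n => rfl
    have hlt : ∀ n, max (b n) (g i (b n)) < b (n + 1) := fun n => by rw [hb]; exact hfm _
    have hmono : StrictMono b :=
      strictMono_nat_of_lt_succ (fun n => (le_max_left _ _).trans_lt (hlt n))
    have hmem : ∀ n, b n ∈ C.1 := by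
      intro n
      cases n with
      | zero => exact hf 0
      | succ n => rw [hb]; exact hf _
    refine ⟨⟨range b, infinite_range_of_injective hmono.injective⟩,
      AlmostSub.of_subset ?_, 0, ?_⟩
    · rintro _ ⟨n, rfl⟩
      exact hmem n
    · rintro _ ⟨n, rfl⟩ - _ ⟨m, rfl⟩ hnm
      have hnm' : n + 1 ≤ m := hmono.lt_iff_lt.1 hnm
      exact ((le_max_right _ _).trans_lt (hlt n)).trans_le (hmono.monotone hnm'))
  refine ⟨B.1 ∩ A, hBA.inter_infinite B.2, inter_subset_right, fun i => ?_⟩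
  obtain ⟨N, hN⟩ := hB i
  exact ⟨N, fun b hb hNb b' hb' hbb' => hN b hb.1 hNb b' hb'.1 hbb'⟩

end Pool.Agent.H98.Polar
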