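import Pool.Agent.H98.PolarClosed
import Pool.Agent.H98.PolarH

/-!
Forcing lemmas: deciding rows, and homogeneous sets of order type kappa.
-/

open Cardinal Ordinal Set

namespace Pool.Agent.H98.Polar

variable {P : Type} [Preorder P]

theorem fMem_mono {X : Type} {x : X} {τ : SetName P X} {q q' : P} (h : q' ≤ q)
    (hm : fMem x τ q) : fMem x τ q' := fun r hr => hm r (hr.trans h)

theorem fNot_mono {φ : P → Prop} {q q' : P} (h : q' ≤ q) (hm : fNot φ q) : fNot φ q' :=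
  fun r hr => hm r (hr.trans h)

theorem fMem_of_dense {X : Type} {x : X} {τ : SetName P X} {q : P}
    (h : ∀ q' ≤ q, ∃ r ≤ q', fMem x τ r) : fMem x τ q := by
  intro q' hq'
  obtain ⟨r, hr, hm⟩ := h q' hq'
  obtain ⟨r', hr', s, hs, hrs⟩ := hm r le_rfl
  exact ⟨r', hr'.trans hr, s, hs, hrs⟩

/-- `p` decides the row of `c` at `ξ` to be `S`. -/
def RowDec {K : Type} (c : SetName P (K × ℕ)) (p : P) (ξ : K) (S : Set ℕ) : Prop :=
  ∀ n, (n ∈ S → fMem (ξ, n) c p) ∧ (n ∉ S → fNot (fMem (ξ, n) c) p)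

theorem RowDec.mono {K : Type} {c : SetName P (K × ℕ)} {p q : P} {ξ : K} {S : Set ℕ}
    (h : q ≤ p) (hr : RowDec c p ξ S) : RowDec c q ξ S :=
  fun n => ⟨fun hn => fMem_mono h ((hr n).1 hn), fun hn => fNot_mono h ((hr n).2 hn)⟩

theorem exists_rowDec {K : Type} (hD : Distrib P ℕ) (c : SetName P (K × ℕ)) (p : P) (ξ : K) :
    ∃ q ≤ p, ∃ S, RowDec c q ξ S := by
  obtain ⟨q, hq, H⟩ := hD p (fun n q => fMem (ξ, n) c q ∨ fNot (fMem (ξ, n) c) q)
    (fun n q q' hqq' h => h.imp (fMem_mono hqq') (fNot_mono hqq'))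
    (fun n q _ => by
      by_cases h : ∃ q' ≤ q, fMem (ξ, n) c q'
      · obtain ⟨q', hq', hm⟩ := h
        exact ⟨q', hq', Or.inl hm⟩
      · exact ⟨q, le_rfl, Or.inr (fun r hr hm => h ⟨r, hr, hm⟩)⟩)
  refine ⟨q, hq, {n | fMem (ξ, n) c q}, fun n => ⟨fun hn => hn, fun hn => ?_⟩⟩
  exact (H n).resolve_left hn

/-- `p` forces that `T` holds unboundedly often. -/
def Unb {K : Type} [LT K] (T : K → P → Prop) (p : P) : Prop :=
  ∀ γ : K, ∀ q ≤ p, ∃ r ≤ q, ∃ ξ, γ < ξ ∧ T ξ r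

theorem Unb.mono {K : Type} [LT K] {T : K → P → Prop} {p q : P} (h : q ≤ p) (hu : Unb T p) :
    Unb T q := fun γ r hr => hu γ r (hr.trans h)

theorem not_unb {K : Type} [LT K] {T : K → P → Prop} {p : P} (h : ¬ Unb T p) :
    ∃ q ≤ p, ∃ γ : K, ∀ r ≤ q, ∀ ξ, γ < ξ → ¬ T ξ r := by
  unfold Unb at h
  push Not at h
  obtain ⟨γ, q, hq, H⟩ := h
  exact ⟨q, hq, γ, H⟩

/-- The check name of a set of natural numbers. -/
def checkSet (B : Set ℕ) : SetName P ℕ := fun n => {_q | n ∈ B}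

theorem mem_of_fMem_checkSet {B : Set ℕ} {n : ℕ} {q : P} (h : fMem n (checkSet B) q) :
    n ∈ B := by
  obtain ⟨_, _, s, hs, _⟩ := h q le_rfl
  exact hs

theorem fMem_checkSet {B : Set ℕ} {n : ℕ} {q : P} (h : n ∈ B) : fMem n (checkSet B) q :=
  fun r _ => ⟨r, le_rfl, r, h, le_rfl⟩

theorem fInfinite_checkSet {B : Set ℕ} (hB : B.Infinite) (q : P) :
    fInfinite (checkSet B) q := by
  intro m q' _
  obtain ⟨n, hn, hmn⟩ := hB.exists_gt m
  exact ⟨q', le_rfl, n, hmn.le, fMem_checkSet hn⟩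

theorem fHom_of_unb {κ : Cardinal.{0}} (hreg : κ.IsRegular) (hP : ClosedPoset κ P)
    (c : SetName P (κ.ord.ToType × ℕ)) {p : P} (T : κ.ord.ToType → P → Prop)
    (hT : ∀ ξ q q', q' ≤ q → T ξ q → T ξ q') (ε : Bool) {B : Set ℕ} (hB : B.Infinite)
    (hc : ∀ ξ q, T ξ q → ∀ n ∈ B, (if ε then fMem (ξ, n) c else fNot (fMem (ξ, n) c)) q)
    (hu : Unb T p) {β : Ordinal.{0}} (f : β.ToType → κ.ord.ToType) (hf : StrictMono f) :
    fHom κ β ε c p := by
  classical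
  have hne : Nonempty κ.ord.ToType := by
    obtain ⟨γ, -⟩ := bounded hreg (σ := Empty) (by simp [hreg.pos]) (fun x => x.elim)
    exact ⟨γ⟩
  let R : κ.ord.ToType → (κ.ord.ToType → κ.ord.ToType) → P → κ.ord.ToType → Prop :=
    fun i h q ξ => T ξ q ∧ ∀ j < i, h j < ξ
  have hIio : ∀ i : κ.ord.ToType, #(Iio i) < κ := fun i => mk_Iio_toType_ord_lt i
  have hR : ∀ i h q q' x, q' ≤ q → R i h q x → R i h q' x :=
    fun i h q q' x hq hr => ⟨hT _ _ _ hq hr.1, hr.2⟩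
  have hL : ∀ i h h' q x, (∀ j < i, h j = h' j) → R i h q x → R i h' q x :=
    fun i h h' q x hh hr => ⟨hr.1, fun j hj => by rw [← hh j hj]; exact hr.2 j hj⟩
  have hS : ∀ i h q, q ≤ p → (∀ j < i, R j h q (h j)) → ∃ q' ≤ q, ∃ x, R i h q' x := by
    intro i h q hq _
    obtain ⟨γ, hγ⟩ := bounded hreg (hIio i) (fun j => h j.1)
    obtain ⟨r, hr, ξ, hξ, hTξ⟩ := hu γ q hq
    exact ⟨r, hr, ξ, hTξ, fun j hj => (hγ ⟨j, hj⟩).trans hξ⟩
  have hD : ∀ i : κ.ord.ToType, Distrib P (Iio i) := fun i =>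
    distrib_of_closed hreg.aleph0_le hP (hIio i)
  have hdense := fun i => dense_thread hR hL hS hD i
  let G : SetName P (β.ToType × κ.ord.ToType) := fun x =>
    {s | ∃ h : κ.ord.ToType → κ.ord.ToType, (∀ j ≤ f x.1, Dec R j h s (h j)) ∧
      h (f x.1) = x.2}
  have hG : ∀ i ξ q, fMem (i, ξ) G q → ∀ q' ≤ q, ∃ r ≤ q', r ∈ G (i, ξ) := by
    intro i ξ q hm q' hq'
    obtain ⟨r, hr, s, ⟨h, hh, hhx⟩, hrs⟩ := hm q' hq'
    exact ⟨r, hr, h, fun j hj => (hh j hj).hered hR hrs, hhx⟩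
  have hGmono : ∀ i ξ r r', r' ≤ r → r ∈ G (i, ξ) → r' ∈ G (i, ξ) := by
    rintro i ξ r r' hr ⟨h, hh, hhx⟩
    exact ⟨h, fun j hj => (hh j hj).hered hR hr, hhx⟩
  have key : ∀ q ≤ p, (fAnd (fIncreasing G) (fAnd (fInfinite (checkSet B))
      (fAll fun i : β.ToType => fAll fun ξ : κ.ord.ToType => fAll fun n : ℕ =>
        fImp (fMem (i, ξ) G) (fImp (fMem n (checkSet B))
          (if ε then fMem (ξ, n) c else fNot (fMem (ξ, n) c)))))) q := by
    intro q hq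
    refine ⟨⟨?_, ?_⟩, fInfinite_checkSet hB q, ?_⟩
    · intro i q' hq'
      obtain ⟨r, hr, h, hh⟩ := hdense (f i) q' (hq'.trans hq)
      exact ⟨r, hr, h (f i), fun r' hr' => ⟨r', le_rfl, r, ⟨h, hh, rfl⟩, hr'⟩⟩
    · intro i j ξ η q1 hq1 h1 q2 hq2 h2
      obtain ⟨r, hr, hrG⟩ := hG i ξ q1 h1 q2 hq2
      obtain ⟨r', hr', hrG'⟩ := hG j η q2 h2 r hr
      obtain ⟨h, hh, hhx⟩ := hGmono i ξ r r' hr' hrG
      obtain ⟨h', hh', hhx'⟩ := hrG'
      dsimp only at hh hhx hh' hhx'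
      constructor
      · intro hij
        have hlt : f i < f j := hf hij
        have e1 := thread_unique hL hh hh' (f i) le_rfl hlt.le
        rw [← hhx, ← hhx', e1]
        exact (hh' (f j) le_rfl).1.2 (f i) hlt
      · rintro rfl
        rw [← hhx, ← hhx']
        exact thread_unique hL hh hh' (f i) le_rfl le_rfl
    · intro i ξ n q1 _ h1 q2 hq2 h2
      have hn : n ∈ B := mem_of_fMem_checkSet h2
      have hdn : ∀ q' ≤ q2, ∃ r ≤ q', (if ε then fMem (ξ, n) c else fNot (fMem (ξ, n) c)) r := by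
        intro q' hq'
        obtain ⟨r, hr, h, hh, hhx⟩ := hG i ξ q1 h1 q' (hq'.trans hq2)
        dsimp only at hh hhx
        have := (hh (f i) le_rfl).1.1
        rw [hhx] at this
        exact ⟨r, hr, hc ξ r this n hn⟩
      cases ε with
      | true =>
        simp only [if_true] at hdn ⊢
        exact fMem_of_dense hdn
      | false =>
        simp only [Bool.false_eq_true, if_false] at hdn ⊢
        intro q3 hq3 hm
        obtain ⟨r, hr, hnr⟩ := hdn q3 hq3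
        exact hnr r le_rfl (fMem_mono hr hm)
  intro q hq
  exact ⟨q, le_rfl, G, fun q' hq' => ⟨q', le_rfl, checkSet B, key q' (hq'.trans hq)⟩⟩

theorem fHom_of_fun {κ : Cardinal.{0}}
    (c : SetName P (κ.ord.ToType × ℕ)) {p : P} {B : Set ℕ} (hB : B.Infinite)
    {β : Ordinal.{0}} (f : β.ToType → κ.ord.ToType) (hf : StrictMono f)
    (hc : ∀ i, ∀ n ∈ B, fMem (f i, n) c p) :
    fHom κ β true c p := by
  let G : SetName P (β.ToType × κ.ord.ToType) := fun x => {_q | x.2 = f x.1}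
  have hG : ∀ i ξ q, fMem (i, ξ) G q → ξ = f i := by
    intro i ξ q h
    obtain ⟨_, _, s, hs, _⟩ := h q le_rfl
    exact hs
  have key : ∀ q ≤ p, (fAnd (fIncreasing G) (fAnd (fInfinite (checkSet B))
      (fAll fun i : β.ToType => fAll fun ξ : κ.ord.ToType => fAll fun n : ℕ =>
        fImp (fMem (i, ξ) G) (fImp (fMem n (checkSet B))
          (if true then fMem (ξ, n) c else fNot (fMem (ξ, n) c)))))) q := by
    intro q hq
    refine ⟨⟨?_, ?_⟩, fInfinite_checkSet hB q, ?_⟩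
    · intro i q' _
      exact ⟨q', le_rfl, f i, fun r' _ => ⟨r', le_rfl, r', rfl, le_rfl⟩⟩
    · intro i j ξ η q1 _ h1 q2 _ h2
      rw [hG i ξ q1 h1, hG j η q2 h2]
      exact ⟨fun hij => hf hij, fun hij => by rw [hij]⟩
    · intro i ξ n q1 hq1 h1 q2 hq2 h2
      have hn : n ∈ B := mem_of_fMem_checkSet h2
      simp only [if_true]
      rw [hG i ξ q1 h1]
      exact fMem_mono (hq2.trans (hq1.trans hq)) (hc i n hn)
  intro q hq
  exact ⟨q, le_rfl, G, fun q' hq' => ⟨q', le_rfl, checkSet B, key q' (hq'.trans hq)⟩⟩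

end Pool.Agent.H98.Polar
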