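import Pool.Agent.H98.PolarDefs

/-!
Luzin splitting families.
-/

open Cardinal Ordinal Set

namespace Pool.Agent.H98.Polar

/-- `X = (X γ : γ ∈ Γ)` is a `ν`-Luzin `κ`-splitting system: every infinite set is contained in
a member of `X γ` for fewer than `ν` many `γ`, and any fewer than `κ` infinite sets are split
by one member of some `X γ`, where `γ` can be chosen outside any given set of size `< κ`. -/
structure LuzinSplitting (κ ν : Cardinal.{0}) {Γ : Type} (X : Γ → Set (Set ℕ)) : Prop where
  /-- every infinite set is contained in members of `X γ` for fewer than `ν` many `γ` -/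
  small : ∀ B : Set ℕ, B.Infinite → #{γ : Γ // ∃ x ∈ X γ, B ⊆ x} < ν
  /-- fewer than `κ` infinite sets are split by one member -/
  split : ∀ Δ : Set Γ, #Δ < κ → ∀ F : Set (Set ℕ), #F < κ → (∀ B ∈ F, B.Infinite) →
    ∃ γ, γ ∉ Δ ∧ ∃ x ∈ X γ, ∀ B ∈ F, (B ∩ x).Infinite ∧ (B \ x).Infinite

/-- `cov(M)`: the least cardinality of a family of meagre sets covering the Baire space. -/
noncomputable def covMeagre : Cardinal.{0} :=
  sInf {μ | ∃ F : Set (Set (ℕ → ℕ)), #F = μ ∧ (∀ M ∈ F, IsMeagre M) ∧ ⋃₀ F = Set.univ}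

/-- A family `f` of functions is strongly `ν`-unbounded: every `g` eventually dominates fewer
than `ν` many members (so every `ν` members are unbounded). -/
def StronglyUnbounded (ν : Cardinal.{0}) {Γ : Type} (f : Γ → ℕ → ℕ) : Prop :=
  ∀ g : ℕ → ℕ, #{γ : Γ // ∃ m, ∀ n ≥ m, f γ n ≤ g n} < ν

end Pool.Agent.H98.Polar
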