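import Pool.Agent.H98.PolarForce
import Pool.Agent.H98.PolarLuzinDefs

/-!
A criterion for the failure of the unbalanced relation in the Levy extension.
-/

open Cardinal Ordinal Set

namespace Pool.Agent.H98.Polar

section Pick

variable {K M Γ : Type} [LinearOrder K] [WellFoundedLT K] [Nonempty Γ]

/-- choose a member of some `X γ` splitting all members of `F`, with `γ` outside `Δ` -/
noncomputable def splitter (X : Γ → Set (Set ℕ)) (F : Set (Set ℕ)) (Δ : Set Γ) :
    Γ × Set ℕ := by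
  classical
  exact if h : ∃ z : Γ × Set ℕ, z.1 ∉ Δ ∧ z.2 ∈ X z.1 ∧
      ∀ B ∈ F, (B ∩ z.2).Infinite ∧ (B \ z.2).Infinite then
    Classical.choose h else (Classical.arbitrary Γ, ∅)

theorem splitter_spec {X : Γ → Set (Set ℕ)} {F : Set (Set ℕ)} {Δ : Set Γ}
    (h : ∃ z : Γ × Set ℕ, z.1 ∉ Δ ∧ z.2 ∈ X z.1 ∧
      ∀ B ∈ F, (B ∩ z.2).Infinite ∧ (B \ z.2).Infinite) :
    (splitter X F Δ).1 ∉ Δ ∧ (splitter X F Δ).2 ∈ X (splitter X F Δ).1 ∧
      ∀ B ∈ F, (B ∩ (splitter X F Δ).2).Infinite ∧ (B \ (splitter X F Δ).2).Infinite := by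
  classical
  unfold splitter
  rw [dif_pos h]
  exact Classical.choose_spec h

/-- the family to be split at `ξ` -/
def fam (real : M → Set ℕ) (h : K → Option M) (ξ : K) : Set (Set ℕ) :=
  {B | B = Set.univ ∨ ∃ η, ∃ a, η < ξ ∧ h η = some a ∧ real a = B}

/-- the colours used before `ξ` -/
def used (ξ : K) (g : ∀ η, η < ξ → Γ × Set ℕ) : Set Γ :=
  {γ | ∃ η, ∃ hη : η < ξ, (g η hη).1 = γ}

/-- the rows computed from the generic function `h` -/
noncomputable def pick (X : Γ → Set (Set ℕ)) (real : M → Set ℕ) (h : K → Option M) :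
    K → Γ × Set ℕ :=
  WellFoundedLT.fix (motive := fun _ => Γ × Set ℕ)
    (fun ξ g => splitter X (fam real h ξ) (used ξ g))

theorem pick_eq (X : Γ → Set (Set ℕ)) (real : M → Set ℕ) (h : K → Option M) (ξ : K) :
    pick X real h ξ = splitter X (fam real h ξ) (used ξ (fun η _ => pick X real h η)) := by
  unfold pick
  exact WellFoundedLT.fix_eq (motive := fun _ => Γ × Set ℕ)
    (fun ξ g => splitter X (fam real h ξ) (used ξ g)) ξ

theorem pick_local (X : Γ → Set (Set ℕ)) (real : M → Set ℕ) {h h' : K → Option M} {ξ : K}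
    (hh : ∀ η < ξ, h η = h' η) : pick X real h ξ = pick X real h' ξ := by
  induction ξ using WellFoundedLT.induction with
  | ind ξ ih =>
    rw [pick_eq, pick_eq]
    have h1 : fam real h ξ = fam real h' ξ := by
      unfold fam
      ext B
      simp only [mem_ofPred_eq]
      constructor
      · rintro (h1 | ⟨η, a, hη, h1, h2⟩)
        · exact Or.inl h1
        · exact Or.inr ⟨η, a, hη, by rw [← hh η hη]; exact h1, h2⟩
      · rintro (h1 | ⟨η, a, hη, h1, h2⟩)
        · exact Or.inl h1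
        · exact Or.inr ⟨η, a, hη, by rw [hh η hη]; exact h1, h2⟩
    have h2 : used ξ (fun η _ => pick X real h η) = used ξ (fun η _ => pick X real h' η) := by
      unfold used
      ext γ
      simp only [mem_ofPred_eq]
      constructor
      · rintro ⟨η, hη, h1⟩
        refine ⟨η, hη, ?_⟩
        rw [← ih η hη (fun ζ hζ => hh ζ (hζ.trans hη))]
        exact h1
      · rintro ⟨η, hη, h1⟩
        refine ⟨η, hη, ?_⟩
        rw [ih η hη (fun ζ hζ => hh ζ (hζ.trans hη))]
        exact h1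
    rw [h1, h2]

end Pick

theorem pick_spec {κ ν : Cardinal.{0}} (hinf : ℵ₀ ≤ κ) {Γ : Type} [Nonempty Γ]
    {X : Γ → Set (Set ℕ)} (hX : LuzinSplitting κ ν X) {M : Type} (real : M → Set ℕ)
    (hreal : ∀ a, (real a).Infinite) (h : κ.ord.ToType → Option M) (ξ : κ.ord.ToType) :
    (pick X real h ξ).2 ∈ X (pick X real h ξ).1 ∧
      (∀ η a, η < ξ → h η = some a →
        (real a ∩ (pick X real h ξ).2).Infinite ∧ (real a \ (pick X real h ξ).2).Infinite) ∧
      (∀ η, η < ξ → (pick X real h η).1 ≠ (pick X real h ξ).1) := by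
  classical
  have hIio : #(Iio ξ) < κ := mk_Iio_toType_ord_lt ξ
  have hcard : #(fam real h ξ) < κ := by
    have hsub : fam real h ξ ⊆
        insert Set.univ (range (fun η : Iio ξ => (h η.1).elim Set.univ real)) := by
      rintro B (h1 | ⟨η, a, hη, h1, h2⟩)
      · exact Or.inl h1
      · refine Or.inr ⟨⟨η, hη⟩, ?_⟩
        simp [h1, h2]
    refine (mk_le_mk_of_subset hsub).trans_lt ((mk_insert_le).trans_lt ?_)
    refine add_lt_of_lt hinf ?_ (one_lt_aleph0.trans_le hinf)
    exact mk_range_le.trans_lt hIio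
  have hcard' : #(used ξ (fun η _ => pick X real h η)) < κ := by
    have hsub : used ξ (fun η _ => pick X real h η) ⊆
        range (fun η : Iio ξ => (pick X real h η.1).1) := by
      rintro γ ⟨η, hη, h1⟩
      exact ⟨⟨η, hη⟩, h1⟩
    exact (mk_le_mk_of_subset hsub).trans_lt (mk_range_le.trans_lt hIio)
  have hall : ∀ B ∈ fam real h ξ, B.Infinite := by
    rintro B (h1 | ⟨η, a, hη, h1, h2⟩)
    · rw [h1]; exact infinite_univ
    · rw [← h2]; exact hreal a
  obtain ⟨γ, hγ, x, hx, hx'⟩ := hX.split _ hcard' _ hcard hall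
  obtain ⟨h1, h2, h3⟩ := splitter_spec ⟨(γ, x), hγ, hx, hx'⟩
  rw [← pick_eq] at h1 h2 h3
  refine ⟨h2, ?_, ?_⟩
  · intro η a hη ha
    exact h3 (real a) (Or.inr ⟨η, a, hη, ha, rfl⟩)
  · intro η hη heq
    exact h1 ⟨η, hη, heq⟩

/-- the name of the bad colouring -/
def badName {κ μ : Cardinal.{0}} {Γ : Type} [Nonempty Γ] (X : Γ → Set (Set ℕ))
    (real : μ.ord.ToType → Set ℕ) : SetName (Levy κ μ) (κ.ord.ToType × ℕ) :=
  fun x => {p | (∀ η < x.1, p.1 η ≠ none) ∧ x.2 ∈ (pick X real p.1 x.1).2}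

section Bad

variable {κ μ : Cardinal.{0}} {Γ : Type} [Nonempty Γ] {X : Γ → Set (Set ℕ)}
  {real : μ.ord.ToType → Set ℕ}

theorem levy_agree {p q : Levy κ μ} (h : p ≤ q) {η : κ.ord.ToType} (hη : q.1 η ≠ none) :
    p.1 η = q.1 η := by
  obtain ⟨a, ha⟩ := Option.ne_none_iff_exists'.1 hη
  rw [ha]
  exact h η a ha

theorem mem_badName {p : Levy κ μ} {ξ : κ.ord.ToType} (hp : ∀ η < ξ, p.1 η ≠ none) {n : ℕ} :
    fMem (ξ, n) (badName X real) p ↔ n ∈ (pick X real p.1 ξ).2 := by
  constructor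
  · intro h
    obtain ⟨r, hr, s, ⟨hs, hsn⟩, hrs⟩ := h p le_rfl
    dsimp only at hs hsn
    have h1 : pick X real p.1 ξ = pick X real s.1 ξ := by
      refine pick_local X real (fun η hη => ?_)
      rw [← levy_agree hr (hp η hη), ← levy_agree hrs (hs η hη)]
    rw [h1]
    exact hsn
  · intro h q hq
    exact ⟨q, le_rfl, p, ⟨hp, h⟩, hq⟩

theorem exists_total (hinf : ℵ₀ ≤ κ) (hμ : μ ≠ 0) (p : Levy κ μ) (ξ : κ.ord.ToType) :
    ∃ q ≤ p, ∀ η < ξ, q.1 η ≠ none := by
  classical
  have hne : Nonempty μ.ord.ToType := by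
    rw [nonempty_toType_iff]
    simpa using hμ
  let g : κ.ord.ToType → Option μ.ord.ToType := fun η =>
    if η < ξ ∧ p.1 η = none then some (Classical.arbitrary _) else p.1 η
  have hcard : #{η // g η ≠ none} < κ := by
    have hsub : {η | g η ≠ none} ⊆ {η | p.1 η ≠ none} ∪ Iio ξ := by
      intro η hη
      by_cases h : η < ξ
      · exact Or.inr h
      · refine Or.inl ?_
        have : g η = p.1 η := if_neg (fun h' => h h'.1)
        exact fun h0 => hη (this.trans h0)
    refine (mk_le_mk_of_subset hsub).trans_lt ((mk_union_le _ _).trans_lt ?_)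
    exact add_lt_of_lt hinf p.2 (mk_Iio_toType_ord_lt ξ)
  refine ⟨⟨g, hcard⟩, fun η a ha => ?_, fun η hη => ?_⟩
  · change g η = some a
    have : g η = p.1 η := if_neg (fun h' => by rw [ha] at h'; exact absurd h'.2 (by simp))
    rw [this]
    exact ha
  · change g η ≠ none
    by_cases h : p.1 η = none
    · have : g η = some (Classical.arbitrary _) := if_pos ⟨hη, h⟩
      rw [this]
      simp
    · have : g η = p.1 η := if_neg (fun h' => h h'.2)
      rw [this]
      exact h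

theorem exists_value (hinf : ℵ₀ ≤ κ) (p : Levy κ μ) (a : μ.ord.ToType) :
    ∃ q ≤ p, ∃ η, q.1 η = some a := by
  classical
  have hex : ∃ η, p.1 η = none := by
    by_contra hcon
    push Not at hcon
    have h1 : #{η // p.1 η ≠ none} = κ := by
      have : {η | p.1 η ≠ none} = Set.univ := eq_univ_of_forall hcon
      have h2 : #{η | p.1 η ≠ none} = #κ.ord.ToType := by rw [this, mk_univ]
      rw [mk_toType, card_ord] at h2
      exact h2
    exact absurd p.2 (by rw [h1]; exact lt_irrefl _)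
  obtain ⟨η, hη⟩ := hex
  let g : κ.ord.ToType → Option μ.ord.ToType := Function.update p.1 η (some a)
  have hcard : #{η // g η ≠ none} < κ := by
    have hsub : {ξ | g ξ ≠ none} ⊆ insert η {ξ | p.1 ξ ≠ none} := by
      intro ξ hξ
      by_cases h : ξ = η
      · exact Or.inl h
      · refine Or.inr ?_
        have : g ξ = p.1 ξ := Function.update_of_ne h _ _
        exact fun h0 => hξ (this.trans h0)
    refine (mk_le_mk_of_subset hsub).trans_lt ((mk_insert_le).trans_lt ?_)
    exact add_lt_of_lt hinf p.2 (one_lt_aleph0.trans_le hinf)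
  refine ⟨⟨g, hcard⟩, fun ξ b hb => ?_, η, Function.update_self _ _ _⟩
  have hne : ξ ≠ η := by
    rintro rfl
    rw [hη] at hb
    exact absurd hb (by simp)
  exact (Function.update_of_ne hne _ _).trans hb

end Bad

section Decide

variable {P : Type} [Preorder P]

theorem decide_infinite (hD : Distrib P ℕ) {B : SetName P ℕ} {q : P} (hB : fInfinite B q) :
    ∃ r ≤ q, ∃ B₀ : Set ℕ, B₀.Infinite ∧ ∀ n ∈ B₀, fMem n B r := by
  obtain ⟨r, hr, H⟩ := hD q (fun n q => fMem n B q ∨ fNot (fMem n B) q)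
    (fun n q q' hqq' h => h.imp (fMem_mono hqq') (fNot_mono hqq'))
    (fun n q _ => by
      by_cases h : ∃ q' ≤ q, fMem n B q'
      · obtain ⟨q', hq', hm⟩ := h
        exact ⟨q', hq', Or.inl hm⟩
      · exact ⟨q, le_rfl, Or.inr (fun r hr hm => h ⟨r, hr, hm⟩)⟩)
  refine ⟨r, hr, {n | fMem n B r}, ?_, fun n hn => hn⟩
  intro hfin
  obtain ⟨m, hm⟩ := hfin.bddAbove
  obtain ⟨r', hr', n, hmn, hn⟩ := hB (m + 1) r hr
  have h1 : fMem n B r := (H n).resolve_right (fun h => h r' hr' hn)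
  have h2 : n ≤ m := hm h1
  have h3 : m + 1 ≤ n := hmn
  omega

theorem decide_values {I K : Type} [LinearOrder I] [LinearOrder K] {σ : Type}
    (hD : Distrib P σ) (i : σ → I) {G : SetName P (I × K)} {q : P} (hG : fIncreasing G q) :
    ∃ r ≤ q, ∃ g : σ → K, (∀ s, fMem (i s, g s) G r) ∧ ∀ s t, i s < i t → g s < g t := by
  obtain ⟨r, hr, H⟩ := hD q (fun s q => ∃ ξ, fMem (i s, ξ) G q)
    (fun s q q' hqq' h => by
      obtain ⟨ξ, hξ⟩ := h
      exact ⟨ξ, fMem_mono hqq' hξ⟩)
    (fun s q' hq' => by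
      obtain ⟨r, hr, ξ, hξ⟩ := hG.1 (i s) q' hq'
      exact ⟨r, hr, ξ, hξ⟩)
  choose g hg using H
  refine ⟨r, hr, g, hg, fun s t hst => ?_⟩
  exact (hG.2 (i s) (i t) (g s) (g t) r hr (hg s) r le_rfl (hg t)).1 hst

end Decide

/-- In the Levy extension the relation fails at every `α` of size at least `ν`. -/
theorem main_luzin {κ ν : Cardinal.{0}} (hreg : κ.IsRegular) (hunc : ℵ₀ < κ)
    {Γ : Type} {X : Γ → Set (Set ℕ)} (hX : LuzinSplitting κ ν X)
    {α : Ordinal.{0}} (hα : α < κ.ord) (hν : ν ≤ α.card) (p : Levy κ continuum.{0}) :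
    fNot (fUnbalanced κ α) p := by
  classical
  have hinf : ℵ₀ ≤ κ := hreg.aleph0_le
  have hΓ : Nonempty Γ := by
    obtain ⟨γ, -⟩ := hX.split ∅ (by simp [hreg.pos]) ∅ (by simp [hreg.pos]) (by simp)
    exact ⟨γ⟩
  have hP : ClosedPoset κ (Levy κ continuum.{0}) := levy_closed hreg _
  have hDN : Distrib (Levy κ continuum.{0}) ℕ :=
    distrib_of_closed hinf hP (by rw [mk_nat]; exact hunc)
  -- a surjection onto the infinite sets
  obtain ⟨real, hreal, hsurj⟩ : ∃ real : (continuum.{0}).ord.ToType → Set ℕ,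
      (∀ a, (real a).Infinite) ∧ ∀ B : Set ℕ, B.Infinite → ∃ a, real a = B := by
    have h1 : #{B : Set ℕ // B.Infinite} ≤ #(continuum.{0}).ord.ToType := by
      rw [mk_toType, card_ord]
      refine (mk_subtype_le _).trans ?_
      rw [mk_set, mk_nat, two_power_aleph0]
    have hne : Nonempty {B : Set ℕ // B.Infinite} := ⟨⟨Set.univ, infinite_univ⟩⟩
    obtain ⟨f⟩ := (le_def _ _).1 h1
    refine ⟨fun a => (Function.invFun f a).1, fun a => (Function.invFun f a).2, fun B hB => ?_⟩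
    refine ⟨f ⟨B, hB⟩, ?_⟩
    have h2 := Function.leftInverse_invFun f.injective ⟨B, hB⟩
    exact congrArg Subtype.val h2
  let c : SetName (Levy κ continuum.{0}) (κ.ord.ToType × ℕ) := badName X real
  have hno0 : ∀ r : Levy κ continuum.{0}, ¬ fHom κ κ.ord false c r := by
    intro r hr
    obtain ⟨r1, hr1, G, hr1'⟩ := hr r le_rfl
    obtain ⟨r2, hr2, B, hG, hB, hhom⟩ := hr1' r1 le_rfl
    obtain ⟨r3, hr3, B₀, hB₀, hB₀'⟩ := decide_infinite hDN hB
    obtain ⟨a, ha⟩ := hsurj B₀ hB₀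
    obtain ⟨r4, hr4, η, hη⟩ := exists_value hinf r3 a
    obtain ⟨i₀, hi₀⟩ := bounded hreg (σ := Unit)
      (by simpa using one_lt_aleph0.trans hunc) (fun _ => η)
    have hIic : #(Iic i₀) < κ := by
      have hsub : Iic i₀ ⊆ insert i₀ (Iio i₀) := by
        intro x hx
        rcases (mem_Iic.1 hx).eq_or_lt with h | h
        · exact Or.inl h
        · exact Or.inr h
      refine (mk_le_mk_of_subset hsub).trans_lt ((mk_insert_le).trans_lt ?_)
      exact add_lt_of_lt hinf (mk_Iio_toType_ord_lt i₀) (one_lt_aleph0.trans_le hinf)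
    have hG4 : fIncreasing G r4 := by
      refine ⟨fun i q hq => hG.1 i q (hq.trans (hr4.trans hr3)), fun i j ξ ζ q hq => ?_⟩
      exact hG.2 i j ξ ζ q (hq.trans (hr4.trans hr3))
    obtain ⟨r5, hr5, g, hg, hgmono⟩ := decide_values (distrib_of_closed hinf hP hIic)
      (fun i : Iic i₀ => i.1) hG4
    have hge : ∀ i : κ.ord.ToType, ∀ hi : i ≤ i₀, i ≤ g ⟨i, hi⟩ := by
      intro i
      induction i using WellFoundedLT.induction with
      | ind i ih =>
        intro hi
        by_contra hcon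
        rw [not_le] at hcon
        have h1 := ih (g ⟨i, hi⟩) hcon (hcon.le.trans hi)
        have h2 := hgmono ⟨g ⟨i, hi⟩, hcon.le.trans hi⟩ ⟨i, hi⟩ hcon
        exact absurd h2 (not_lt.2 h1)
    let ξ := g ⟨i₀, mem_Iic.2 le_rfl⟩
    have hξ : η < ξ := (hi₀ ()).trans_le (hge i₀ le_rfl)
    obtain ⟨r6, hr6, htot⟩ := exists_total hinf continuum_ne_zero r5 ξ
    have hη6 : r6.1 η = some a := hr6 η a (hr5 η a hη)
    have hspl := (pick_spec hinf hX real hreal r6.1 ξ).2.1 η a hξ hη6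
    rw [ha] at hspl
    obtain ⟨n, hnB, hnp⟩ := hspl.1.nonempty
    have h1 : fMem (ξ, n) c r6 := (mem_badName htot).2 hnp
    have hle63 : r6 ≤ r3 := hr6.trans (hr5.trans hr4)
    have h2 := hhom i₀ ξ n r6 (hle63.trans hr3)
      (fMem_mono hr6 (hg ⟨i₀, mem_Iic.2 le_rfl⟩)) r6 le_rfl (fMem_mono hle63 (hB₀' n hnB))
    simp only [Bool.false_eq_true, if_false] at h2
    exact h2 r6 le_rfl h1
  have hno1 : ∀ r : Levy κ continuum.{0}, ¬ fHom κ α true c r := by
    intro r hr
    obtain ⟨r1, hr1, G, hr1'⟩ := hr r le_rfl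
    obtain ⟨r2, hr2, B, hG, hB, hhom⟩ := hr1' r1 le_rfl
    obtain ⟨r3, hr3, B₀, hB₀, hB₀'⟩ := decide_infinite hDN hB
    have hG3 : fIncreasing G r3 := by
      refine ⟨fun i q hq => hG.1 i q (hq.trans hr3), fun i j ξ ζ q hq => ?_⟩
      exact hG.2 i j ξ ζ q (hq.trans hr3)
    have hακ : #α.ToType < κ := by
      rw [mk_toType]
      exact lt_ord.1 hα
    obtain ⟨r5, hr5, g, hg, hgmono⟩ := decide_values (distrib_of_closed hinf hP hακ)
      (fun i : α.ToType => i) hG3
    obtain ⟨γ, hγ⟩ := bounded hreg hακ g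
    obtain ⟨r6, hr6, htot⟩ := exists_total hinf continuum_ne_zero r5 γ
    have htot' : ∀ s, ∀ η < g s, r6.1 η ≠ none := fun s η hη => htot η (hη.trans (hγ s))
    have hle63 : r6 ≤ r3 := hr6.trans hr5
    have hsub : ∀ s, B₀ ⊆ (pick X real r6.1 (g s)).2 := by
      intro s n hn
      have h2 := hhom s (g s) n r6 (hle63.trans hr3)
        (fMem_mono hr6 (hg s)) r6 le_rfl (fMem_mono hle63 (hB₀' n hn))
      simp only [if_true] at h2
      exact (mem_badName (htot' s)).1 h2
    let f : α.ToType → {γ : Γ // ∃ x ∈ X γ, B₀ ⊆ x} := fun s =>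
      ⟨(pick X real r6.1 (g s)).1, (pick X real r6.1 (g s)).2,
        (pick_spec hinf hX real hreal r6.1 (g s)).1, hsub s⟩
    have hf : Function.Injective f := by
      intro s t hst
      have hst' : (pick X real r6.1 (g s)).1 = (pick X real r6.1 (g t)).1 :=
        congrArg (fun x => x.1) hst
      rcases lt_trichotomy s t with h | h | h
      · exact absurd hst' ((pick_spec hinf hX real hreal r6.1 (g t)).2.2 _ (hgmono s t h))
      · exact h
      · exact absurd hst'.symm
          ((pick_spec hinf hX real hreal r6.1 (g s)).2.2 _ (hgmono t s h))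
    have h3 := mk_le_of_injective hf
    rw [mk_toType] at h3
    exact absurd (hX.small B₀ hB₀) (not_lt.2 (hν.trans h3))
  intro q hq hcon
  obtain ⟨r, hr, h | h⟩ := hcon c q le_rfl
  · exact hno0 r h
  · exact hno1 r h

end Pool.Agent.H98.Polar
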