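import Pool.Agent.H98.PolarLuzin

/-!
Strongly unbounded families and `cov(M)` give Luzin splitting systems.
-/

open Cardinal Ordinal Set

namespace Pool.Agent.H98.Polar

/-- end points of the interval partition for `φ` -/
def ends (φ : ℕ → ℕ) : ℕ → ℕ
  | 0 => 0
  | n + 1 => ends φ n + φ n + φ (n + 1) + 2

theorem ends_succ (φ : ℕ → ℕ) (n : ℕ) : ends φ n + 2 ≤ ends φ (n + 1) := by
  simp only [ends]
  omega

theorem ends_strictMono (φ : ℕ → ℕ) : StrictMono (ends φ) :=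
  strictMono_nat_of_lt_succ (fun n => by have := ends_succ φ n; omega)

theorem le_ends (φ : ℕ → ℕ) (n : ℕ) : φ n ≤ ends φ (n + 1) := by
  simp only [ends]
  omega

/-- length of the `n`-th interval -/
def len (φ : ℕ → ℕ) (n : ℕ) : ℕ := ends φ (n + 1) - ends φ n

theorem two_le_len (φ : ℕ → ℕ) (n : ℕ) : 2 ≤ len φ n := by
  have := ends_succ φ n
  unfold len
  omega

/-- the point chosen by `y` in the `n`-th interval -/
def pt (φ : ℕ → ℕ) (y : ℕ → ℕ) (n : ℕ) : ℕ := ends φ n + y n % len φ n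

theorem pt_lt (φ y : ℕ → ℕ) (n : ℕ) : pt φ y n < ends φ (n + 1) := by
  have h1 := Nat.mod_lt (y n) (show 0 < len φ n by have := two_le_len φ n; omega)
  have h2 := ends_succ φ n
  unfold pt
  unfold len at h1 ⊢
  omega

theorem le_pt (φ y : ℕ → ℕ) (n : ℕ) : ends φ n ≤ pt φ y n := by
  unfold pt
  omega

theorem pt_strictMono (φ y : ℕ → ℕ) : StrictMono (pt φ y) :=
  strictMono_nat_of_lt_succ (fun n => (pt_lt φ y n).trans_le (le_pt φ y (n + 1)))

/-- the sparse set coded by `y` -/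
def sp (φ y : ℕ → ℕ) : Set ℕ := range (pt φ y)

theorem sparse (φ y : ℕ → ℕ) {B : Set ℕ} (hB : B.Infinite) (hBs : B ⊆ sp φ y) :
    ∀ n, ends φ n ≤ Nat.nth (· ∈ B) n := by
  intro n
  have hmem : ∀ k, ∃ j, pt φ y j = Nat.nth (· ∈ B) k := fun k =>
    hBs (Nat.nth_mem_of_infinite (p := (· ∈ B)) hB k)
  choose j hj using hmem
  have hjm : StrictMono j := by
    intro a b hab
    have h1 : Nat.nth (· ∈ B) a < Nat.nth (· ∈ B) b := Nat.nth_strictMono (p := (· ∈ B)) hB hab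
    rw [← hj a, ← hj b] at h1
    exact (pt_strictMono φ y).lt_iff_lt.1 h1
  rw [← hj n]
  exact ((ends_strictMono φ).monotone hjm.le_apply).trans (le_pt φ y _)

theorem exists_interval (φ : ℕ → ℕ) (b : ℕ) :
    ∃ n, ends φ n ≤ b ∧ b < ends φ (n + 1) := by
  have hex : ∃ n, b < ends φ (n + 1) :=
    ⟨b, lt_of_lt_of_le (Nat.lt_succ_self b) (ends_strictMono φ).le_apply⟩
  classical
  refine ⟨Nat.find hex, ?_, Nat.find_spec hex⟩
  rcases Nat.eq_zero_or_pos (Nat.find hex) with h | h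
  · rw [h]
    exact Nat.zero_le _
  · by_contra hcon
    rw [not_le] at hcon
    have := Nat.find_min hex (m := Nat.find hex - 1) (by omega)
    rw [Nat.sub_add_cancel h] at this
    exact this hcon

/-- the `y` that hit `B` beyond `m` -/
theorem hit_residual (φ : ℕ → ℕ) {B : Set ℕ} (hB : B.Infinite) :
    {y | (B ∩ sp φ y).Infinite ∧ (B \ sp φ y).Infinite} ∈ residual (ℕ → ℕ) := by
  -- basic open dense sets
  let U : ℕ → Set (ℕ → ℕ) := fun m =>
    {y | ∃ n, m ≤ n ∧ pt φ y n ∈ B}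
  let V : ℕ → Set (ℕ → ℕ) := fun m =>
    {y | ∃ n, m ≤ n ∧ ∃ b ∈ B, ends φ n ≤ b ∧ b < ends φ (n + 1) ∧ pt φ y n ≠ b}
  have hcoord : ∀ (n : ℕ) (S : Set ℕ), IsOpen {y : ℕ → ℕ | y n ∈ S} := fun n S =>
    (isOpen_discrete S).preimage (continuous_apply n)
  have hUo : ∀ m, IsOpen (U m) := by
    intro m
    have : U m = ⋃ n ∈ {n | m ≤ n}, {y : ℕ → ℕ | y n ∈ {v | ends φ n + v % len φ n ∈ B}} := by
      ext y
      simp [U, pt]
    rw [this]
    exact isOpen_biUnion (fun n _ => hcoord n _)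
  have hVo : ∀ m, IsOpen (V m) := by
    intro m
    have : V m = ⋃ n ∈ {n | m ≤ n}, {y : ℕ → ℕ | y n ∈ {v | ∃ b ∈ B, ends φ n ≤ b ∧
        b < ends φ (n + 1) ∧ ends φ n + v % len φ n ≠ b}} := by
      ext y
      simp [V, pt]
    rw [this]
    exact isOpen_biUnion (fun n _ => hcoord n _)
  -- every finite initial part can be extended
  have hdense : ∀ W : Set (ℕ → ℕ), (∀ m (y : ℕ → ℕ), ∃ z ∈ W, ∀ i < m, z i = y i) →
      Dense W := by
    intro W hW
    rw [dense_iff_inter_open]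
    intro O hO ⟨y, hy⟩
    obtain ⟨I, u, hu, hsub⟩ := isOpen_pi_iff.1 hO y hy
    obtain ⟨z, hz, hzy⟩ := hW (I.sup id + 1) y
    refine ⟨z, hsub ?_, hz⟩
    intro i hi
    have h1 : i < I.sup id + 1 := Nat.lt_succ_of_le (Finset.le_sup (f := id) hi)
    rw [hzy i h1]
    exact (hu i hi).2
  have hbig : ∀ m k, ∃ n, m ≤ n ∧ k ≤ n ∧ ∃ b ∈ B, ends φ n ≤ b ∧ b < ends φ (n + 1) := by
    intro m k
    obtain ⟨b, hb, hlt⟩ := hB.exists_gt (ends φ (m + k))
    obtain ⟨n, h1, h2⟩ := exists_interval φ b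
    have h3 : m + k < n + 1 := (ends_strictMono φ).lt_iff_lt.1 (hlt.trans h2)
    exact ⟨n, by omega, by omega, b, hb, h1, h2⟩
  have hUd : ∀ m, Dense (U m) := by
    intro m
    apply hdense
    intro k y
    obtain ⟨n, h1, h2, b, hb, h3, h4⟩ := hbig m k
    refine ⟨Function.update y n (b - ends φ n), ⟨n, h1, ?_⟩, fun i hi => ?_⟩
    · have h5 : pt φ (Function.update y n (b - ends φ n)) n = b := by
        unfold pt
        rw [Function.update_self, Nat.mod_eq_of_lt (by unfold len; omega)]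
        omega
      rw [h5]
      exact hb
    · rw [Function.update_of_ne (by omega)]
  have hVd : ∀ m, Dense (V m) := by
    intro m
    apply hdense
    intro k y
    obtain ⟨n, h1, h2, b, hb, h3, h4⟩ := hbig m k
    -- a value different from `b`
    obtain ⟨v, hv, hvb⟩ : ∃ v, v < len φ n ∧ ends φ n + v ≠ b := by
      have := two_le_len φ n
      by_cases h : ends φ n = b
      · exact ⟨1, by omega, by omega⟩
      · exact ⟨0, by omega, by omega⟩
    refine ⟨Function.update y n v, ⟨n, h1, b, hb, h3, h4, ?_⟩, fun i hi => ?_⟩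
    · unfold pt
      rw [Function.update_self, Nat.mod_eq_of_lt hv]
      exact hvb
    · rw [Function.update_of_ne (by omega)]
  have hres : (⋂ m, (U m ∩ V m)) ∈ residual (ℕ → ℕ) := by
    rw [countable_iInter_mem]
    intro m
    exact Filter.inter_mem (residual_of_dense_open (hUo m) (hUd m))
      (residual_of_dense_open (hVo m) (hVd m))
  refine Filter.mem_of_superset hres ?_
  intro y hy
  rw [mem_iInter] at hy
  constructor
  · intro hfin
    obtain ⟨M, hM⟩ := hfin.bddAbove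
    obtain ⟨n, h1, h2⟩ := (hy (M + 1)).1
    have h3 : pt φ y n ≤ M := hM ⟨h2, n, rfl⟩
    have h4 : n ≤ pt φ y n := (pt_strictMono φ y).le_apply
    omega
  · intro hfin
    obtain ⟨M, hM⟩ := hfin.bddAbove
    obtain ⟨n, h1, b, hb, h2, h3, h4⟩ := (hy (M + 1)).2
    have h5 : b ∉ sp φ y := by
      rintro ⟨k, hk⟩
      have h6 : k < n + 1 := (ends_strictMono φ).lt_iff_lt.1 ((le_pt φ y k).trans_lt
        (by rw [hk]; exact h3))
      have h7 : n < k + 1 := (ends_strictMono φ).lt_iff_lt.1 (lt_of_le_of_lt h2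
        (by rw [← hk]; exact pt_lt φ y k))
      have h8 : k = n := by omega
      rw [h8] at hk
      exact h4 hk
    have h6 : b ≤ M := hM ⟨hb, h5⟩
    have h7 : n ≤ ends φ n := (ends_strictMono φ).le_apply
    omega

theorem exists_sparse_splitter {κ : Cardinal.{0}} (hκ : κ ≤ covMeagre) (φ : ℕ → ℕ)
    (F : Set (Set ℕ)) (hF : #F < κ) (hFi : ∀ B ∈ F, B.Infinite) :
    ∃ y : ℕ → ℕ, ∀ B ∈ F, (B ∩ sp φ y).Infinite ∧ (B \ sp φ y).Infinite := by
  let N : F → Set (ℕ → ℕ) := fun B =>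
    {y | (B.1 ∩ sp φ y).Infinite ∧ (B.1 \ sp φ y).Infinite}ᶜ
  have hnot : #(range N) ∉ {μ : Cardinal.{0} | ∃ F : Set (Set (ℕ → ℕ)), #F = μ ∧
      (∀ M ∈ F, IsMeagre M) ∧ ⋃₀ F = Set.univ} := by
    refine notMem_of_lt_csInf' ?_
    exact (mk_range_le.trans_lt hF).trans_le hκ
  have hcov : ⋃₀ (range N) ≠ Set.univ := by
    intro h
    refine hnot ⟨range N, rfl, ?_, h⟩
    rintro _ ⟨B, rfl⟩
    have := hit_residual φ (hFi B.1 B.2)
    unfold IsMeagre
    simpa only [N, compl_compl] using this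
  obtain ⟨y, hy⟩ := (ne_univ_iff_exists_notMem _).1 hcov
  refine ⟨y, fun B hB => ?_⟩
  by_contra hcon
  exact hy ⟨N ⟨B, hB⟩, ⟨⟨B, hB⟩, rfl⟩, hcon⟩

theorem luzin_of_unbounded {κ ν : Cardinal.{0}} (hκ : κ ≤ covMeagre) {Γ : Type}
    (hΓ : κ ≤ #Γ) (f : Γ → ℕ → ℕ) (hf : StronglyUnbounded ν f) :
    LuzinSplitting κ ν (fun γ => range (sp (fun n => f γ n))) := by
  constructor
  · intro B hB
    refine lt_of_le_of_lt ?_ (hf (fun n => Nat.nth (· ∈ B) (n + 1)))
    refine mk_subtype_mono ?_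
    rintro γ ⟨x, ⟨y, rfl⟩, hx⟩
    exact ⟨0, fun n _ => (le_ends _ n).trans (sparse _ y hB hx (n + 1))⟩
  · intro Δ hΔ F hF hFi
    obtain ⟨γ, hγ⟩ : ∃ γ, γ ∉ Δ := by
      by_contra hcon
      push Not at hcon
      have h1 : Δ = Set.univ := eq_univ_of_forall hcon
      rw [h1, mk_univ] at hΔ
      exact absurd hΔ (not_lt.2 hΓ)
    obtain ⟨y, hy⟩ := exists_sparse_splitter hκ (fun n => f γ n) F hF hFi
    exact ⟨γ, hγ, sp (fun n => f γ n) y, ⟨y, rfl⟩, hy⟩

end Pool.Agent.H98.Polar
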