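import Pool.Agent.H98.PolarForce

/-!
The unbalanced polarized relation in extensions by closed posets.
-/

open Cardinal Ordinal Set

namespace Pool.Agent.H98.Polar

variable {P : Type} [Preorder P]

theorem AlmostSub.exists_bound {A B : Set ℕ} (h : AlmostSub A B) :
    ∃ m, ∀ n ∈ A, m ≤ n → n ∈ B := by
  obtain ⟨m, hm⟩ := h.bddAbove
  refine ⟨m + 1, fun n hn hmn => ?_⟩
  by_contra hcon
  have := hm ⟨hn, hcon⟩
  omega

theorem exists_strictMono_of_lt {κ : Cardinal.{0}} {α : Ordinal.{0}} (hα : α < κ.ord) :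
    ∃ f : α.ToType → κ.ord.ToType, StrictMono f := by
  have h : typeLT α.ToType ≤ typeLT κ.ord.ToType := by
    rw [type_toType, type_toType]
    exact hα.le
  obtain ⟨f⟩ := type_le_iff'.1 h
  exact ⟨f, fun a b hab => f.map_rel_iff.2 hab⟩

/-! ### The case `r < κ` -/

theorem exists_reaping {κ : Cardinal.{0}} (h : rNumber < κ) :
    ∃ C : Set (Set ℕ), #C < κ ∧ Reaping C := by
  have hne : {μ : Cardinal.{0} | ∃ C : Set (Set ℕ), #C = μ ∧ Reaping C}.Nonempty := by
    refine ⟨_, {B | B.Infinite}, rfl, fun B hB => hB, fun S => ?_⟩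
    by_cases hS : S.Infinite
    · exact ⟨S, hS, Or.inl (AlmostSub.refl S)⟩
    · have : Sᶜ.Infinite := by
        rw [not_infinite] at hS
        exact hS.infinite_compl
      exact ⟨Sᶜ, this, Or.inr (AlmostSub.refl _)⟩
  obtain ⟨_, ⟨C, rfl, hC⟩, hlt⟩ := exists_lt_of_csInf_lt hne h
  exact ⟨C, hlt, hC⟩

theorem main_reaping {κ : Cardinal.{0}} (hreg : κ.IsRegular) (hunc : ℵ₀ < κ)
    (hP : ClosedPoset κ P) (h : rNumber < κ) (c : SetName P (κ.ord.ToType × ℕ)) (p : P)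
    {α : Ordinal.{0}} (hα : α < κ.ord) :
    ∃ r ≤ p, fHom κ κ.ord false c r ∨ fHom κ α true c r := by
  classical
  obtain ⟨C, hCκ, hC⟩ := exists_reaping h
  let σ : Type := C × ℕ × Bool
  have hσ : #σ < κ := by
    have h1 : #σ = #C * (ℵ₀ * #Bool) := by simp [σ]
    rw [h1]
    exact mul_lt_of_lt hreg.aleph0_le hCκ
      (mul_lt_of_lt hreg.aleph0_le hunc ((lt_aleph0_of_finite Bool).trans hunc))
  let T : σ → κ.ord.ToType → P → Prop := fun i ξ q =>
    ∃ S, RowDec c q ξ S ∧ ∀ n ∈ i.1.1, i.2.1 ≤ n → (if i.2.2 then n ∈ S else n ∉ S)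
  by_cases hu : ∃ i, ∃ r ≤ p, Unb (T i) r
  · obtain ⟨i, r, hr, hu⟩ := hu
    refine ⟨r, hr, ?_⟩
    let B : Set ℕ := {n | n ∈ i.1.1 ∧ i.2.1 ≤ n}
    have hB : B.Infinite := by
      have h1 : i.1.1.Infinite := hC.1 _ i.1.2
      intro hfin
      refine h1 ((hfin.union (finite_Iio i.2.1)).subset ?_)
      intro n hn
      by_cases hni : i.2.1 ≤ n
      · exact Or.inl ⟨hn, hni⟩
      · exact Or.inr (not_le.1 hni)
    have hT : ∀ ξ q q', q' ≤ q → T i ξ q → T i ξ q' := by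
      rintro ξ q q' hq ⟨S, hS, hS'⟩
      exact ⟨S, hS.mono hq, hS'⟩
    have hc : ∀ ξ q, T i ξ q → ∀ n ∈ B,
        (if i.2.2 then fMem (ξ, n) c else fNot (fMem (ξ, n) c)) q := by
      rintro ξ q ⟨S, hS, hS'⟩ n ⟨hn, hin⟩
      have h1 := hS' n hn hin
      cases hε : i.2.2 with
      | true =>
        rw [hε] at h1
        simp only [if_true] at h1 ⊢
        exact (hS n).1 h1
      | false =>
        rw [hε] at h1
        simp only [Bool.false_eq_true, if_false] at h1 ⊢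
        exact (hS n).2 h1
    obtain ⟨f, hf⟩ := exists_strictMono_of_lt hα
    cases hε : i.2.2 with
    | true =>
      right
      rw [hε] at hc
      exact fHom_of_unb hreg hP c (T i) hT true hB hc hu f hf
    | false =>
      left
      rw [hε] at hc
      exact fHom_of_unb hreg hP c (T i) hT false hB hc hu id strictMono_id
  · exfalso
    push Not at hu
    obtain ⟨q, hq, H⟩ := distrib_of_closed hreg.aleph0_le hP hσ p
      (fun i q => ∃ γ : κ.ord.ToType, ∀ r ≤ q, ∀ ξ, γ < ξ → ¬ T i ξ r)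
      (fun i q q' hqq' hh => by
        obtain ⟨γ, hγ⟩ := hh
        exact ⟨γ, fun r hr => hγ r (hr.trans hqq')⟩)
      (fun i q hq => by
        obtain ⟨q', hq', γ, hγ⟩ := not_unb (hu i q hq)
        exact ⟨q', hq', γ, hγ⟩)
    choose γ hγ using H
    obtain ⟨ξ, hξ⟩ := bounded hreg hσ γ
    obtain ⟨r, hr, S, hS⟩ := exists_rowDec
      (distrib_of_closed hreg.aleph0_le hP (by rw [mk_nat]; exact hunc)) c q ξ
    obtain ⟨B, hBC, hBS⟩ := hC.2 S
    rcases hBS with hBS | hBS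
    · obtain ⟨m, hm⟩ := hBS.exists_bound
      refine hγ (⟨B, hBC⟩, m, true) r hr ξ (hξ _) ⟨S, hS, ?_⟩
      simpa using hm
    · obtain ⟨m, hm⟩ := hBS.exists_bound
      refine hγ (⟨B, hBC⟩, m, false) r hr ξ (hξ _) ⟨S, hS, ?_⟩
      simpa using hm

/-! ### The case `|α| < h` -/

/-- If alternative `0` is never forced, then all infinite sets are met by almost all rows. -/
theorem star {κ : Cardinal.{0}} (hreg : κ.IsRegular) (hunc : ℵ₀ < κ)
    (hP : ClosedPoset κ P) (c : SetName P (κ.ord.ToType × ℕ)) {p : P}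
    (hno : ∀ r ≤ p, ¬ fHom κ κ.ord false c r) {B : Set ℕ} (hB : B.Infinite) {q : P}
    (hq : q ≤ p) :
    ∃ q' ≤ q, ∃ γ : κ.ord.ToType, ∀ r ≤ q', ∀ ξ, γ < ξ → ∀ S, RowDec c r ξ S →
      (S ∩ B).Infinite := by
  classical
  have hσ : #ℕ < κ := by rw [mk_nat]; exact hunc
  obtain ⟨q', hq', H⟩ := distrib_of_closed hreg.aleph0_le hP hσ q
    (fun m q => ∃ γ : κ.ord.ToType, ∀ r ≤ q, ∀ ξ, γ < ξ → ¬ ∃ S, RowDec c r ξ S ∧
      ∀ n ∈ S ∩ B, n < m)
    (fun m q q' hqq' hh => by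
      obtain ⟨γ, hγ⟩ := hh
      exact ⟨γ, fun r hr => hγ r (hr.trans hqq')⟩)
    (fun m q₁ hq₁ => by
      have hnu : ¬ Unb (fun (ξ : κ.ord.ToType) r => ∃ S, RowDec c r ξ S ∧
          ∀ n ∈ S ∩ B, n < m) q₁ := by
        intro hu
        refine hno q₁ (hq₁.trans hq) ?_
        have hB' : {n | n ∈ B ∧ m ≤ n}.Infinite := by
          intro hfin
          refine hB ((hfin.union (finite_Iio m)).subset ?_)
          intro n hn
          by_cases hni : m ≤ n
          · exact Or.inl ⟨hn, hni⟩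
          · exact Or.inr (not_le.1 hni)
        refine fHom_of_unb hreg hP c _ ?_ false hB' ?_ hu id strictMono_id
        · rintro ξ r r' hr ⟨S, hS, hS'⟩
          exact ⟨S, hS.mono hr, hS'⟩
        · rintro ξ r ⟨S, hS, hS'⟩ n ⟨hnB, hmn⟩
          simp only [Bool.false_eq_true, if_false]
          refine (hS n).2 (fun hnS => ?_)
          exact absurd (hS' n ⟨hnS, hnB⟩) (not_lt.2 hmn)
      obtain ⟨q₂, hq₂, γ, hγ⟩ := not_unb hnu
      exact ⟨q₂, hq₂, γ, hγ⟩)
  choose γ hγ using H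
  obtain ⟨γ', hγ'⟩ := bounded hreg hσ γ
  refine ⟨q', hq', γ', fun r hr ξ hξ S hS => ?_⟩
  intro hfin
  obtain ⟨m, hm⟩ := hfin.bddAbove
  refine hγ (m + 1) r hr ξ ((hγ' _).trans hξ) ⟨S, hS, fun n hn => ?_⟩
  exact Nat.lt_succ_of_le (hm hn)

theorem main_h {κ : Cardinal.{0}} (hreg : κ.IsRegular) (hunc : ℵ₀ < κ)
    (hP : ClosedPoset κ P) (c : SetName P (κ.ord.ToType × ℕ)) (p : P)
    {α : Ordinal.{0}} (hα : α < κ.ord) (hh : α.card < hNumber) :
    ∃ r ≤ p, fHom κ κ.ord false c r ∨ fHom κ α true c r := by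
  classical
  by_cases hno : ∃ r ≤ p, fHom κ κ.ord false c r
  · obtain ⟨r, hr, hr'⟩ := hno
    exact ⟨r, hr, Or.inl hr'⟩
  push Not at hno
  have hNκ : #ℕ < κ := by rw [mk_nat]; exact hunc
  have hNh : #ℕ < hNumber := by rw [mk_nat]; exact aleph0_lt_hNumber
  have hακ : #α.ToType < κ := by
    rw [mk_toType]
    exact lt_ord.1 hα
  have hαh : #α.ToType < hNumber := by
    rw [mk_toType]
    exact hh
  have dP : ∀ {σ : Type}, #σ < κ → Distrib P σ := fun hσ =>
    distrib_of_closed hreg.aleph0_le hP hσ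
  -- some element of `κ`
  have hne : Nonempty κ.ord.ToType := by
    obtain ⟨γ, -⟩ := bounded hreg (σ := Empty) (by simp [hreg.pos]) (fun x => x.elim)
    exact ⟨γ⟩
  obtain ⟨E, hE⟩ : ∃ E : ℕ → Finset ℕ, Function.Surjective E := exists_surjective_nat _
  let code : Finset ℕ → ℕ := Function.surjInv hE
  have hcode : ∀ F, E (code F) = F := Function.surjInv_eq hE
  let TE : Finset ℕ → κ.ord.ToType → P → Prop := fun F ξ r =>
    ∃ S : Set ℕ, RowDec c r ξ S ∧ (F : Set ℕ) ⊆ S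
  -- decide all `Good E`
  obtain ⟨p₁, hp₁, H₁⟩ := dP hNκ p
    (fun k q => Unb (TE (E k)) q ∨ ∃ γ : κ.ord.ToType, ∀ r ≤ q, ∀ ξ, γ < ξ → ¬ TE (E k) ξ r)
    (fun k q q' hqq' h => h.imp (fun h => h.mono hqq') (fun h => by
      obtain ⟨γ, hγ⟩ := h
      exact ⟨γ, fun r hr => hγ r (hr.trans hqq')⟩))
    (fun k q _ => by
      by_cases hu : Unb (TE (E k)) q
      · exact ⟨q, le_rfl, Or.inl hu⟩
      · obtain ⟨q', hq', γ, hγ⟩ := not_unb hu
        exact ⟨q', hq', Or.inr ⟨γ, hγ⟩⟩)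
  let Good : Finset ℕ → Prop := fun F => Unb (TE F) p₁
  have hbad : ∀ F, ∃ γ : κ.ord.ToType, ¬ Good F → ∀ r ≤ p₁, ∀ ξ, γ < ξ → ¬ TE F ξ r := by
    intro F
    have h1 := H₁ (code F)
    rw [hcode] at h1
    rcases h1 with h1 | ⟨γ, hγ⟩
    · exact ⟨Classical.arbitrary _, fun h2 => absurd h1 h2⟩
    · exact ⟨γ, fun _ => hγ⟩
  choose γF hγF using hbad
  have hFκ : #(Finset ℕ) < κ := by
    have : #(Finset ℕ) = ℵ₀ := mk_eq_aleph0 _
    rw [this]
    exact hunc
  obtain ⟨γ₀, hγ₀⟩ := bounded hreg hFκ γF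
  have hgood_empty : Good ∅ := by
    intro γ q hq
    obtain ⟨ξ, hξ⟩ := bounded hreg (σ := Unit) (by
      simpa using one_lt_aleph0.trans hunc) (fun _ => γ)
    obtain ⟨r, hr, S, hS⟩ := exists_rowDec (dP hNκ) c q ξ
    exact ⟨r, hr, ξ, hξ (), S, hS, by simp⟩
  have hgood_succ : ∀ F, Good F → {n | ¬ Good (insert n F)}.Finite := by
    intro F hF
    by_contra hinf
    obtain ⟨q, hq, γ, hγ⟩ := star hreg hunc hP c hno (B := {n | ¬ Good (insert n F)}) hinf
      hp₁
    obtain ⟨r, hr, ξ, hξ, S, hS, hFS⟩ := hF (max γ γ₀) q hq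
    have hi := hγ r hr ξ ((le_max_left _ _).trans_lt hξ) S hS
    obtain ⟨n, hnS, hnB⟩ := hi.nonempty
    refine hγF (insert n F) hnB r (hr.trans hq) ξ
      ((hγ₀ _).trans ((le_max_right _ _).trans_lt hξ)) ⟨S, hS, ?_⟩
    intro x hx
    rw [Finset.coe_insert] at hx
    rcases hx with rfl | hx
    · exact hnS
    · exact hFS hx
  -- the thread
  let ι := α.ToType ×ₗ ℕ
  have hικ : #ι < κ := by
    have : #ι = #α.ToType * #ℕ := by
      exact (mul_def α.ToType ℕ).symm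
    rw [this]
    exact mul_lt_of_lt hreg.aleph0_le hακ hNκ
  have hιh : #ι < hNumber := by
    have : #ι = #α.ToType * #ℕ := by
      exact (mul_def α.ToType ℕ).symm
    rw [this]
    exact mul_lt_of_lt aleph0_lt_hNumber.le hαh hNh
  let Ei : ι → Finset ℕ := fun i => E (ofLex i).2
  let R : ι → (ι → P × κ.ord.ToType) → InfSet → P × κ.ord.ToType → Prop := fun i h B x =>
    x.1 ≤ p₁ ∧ (∀ j < i, x.1 ≤ (h j).1 ∧ (h j).2 < x.2) ∧
      ∃ S, RowDec c x.1 x.2 S ∧ AlmostSub B.s S ∧ (Good (Ei i) → (Ei i : Set ℕ) ⊆ S)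
  have hR : ∀ i h q q' x, q' ≤ q → R i h q x → R i h q' x := by
    rintro i h q q' x hq ⟨h1, h2, S, h3, h4, h5⟩
    exact ⟨h1, h2, S, h3, AlmostSub.trans hq h4, h5⟩
  have hL : ∀ i h h' q x, (∀ j < i, h j = h' j) → R i h q x → R i h' q x := by
    rintro i h h' q x hhh ⟨h1, h2, h3⟩
    exact ⟨h1, fun j hj => by rw [← hhh j hj]; exact h2 j hj, h3⟩
  have hchain : ∀ (i : ι) (h : ι → P × κ.ord.ToType) (B : InfSet),
      (∀ j < i, R j h B (h j)) →
      ∃ q ≤ p₁, ∀ j < i, q ≤ (h j).1 := by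
    intro i h B hj
    obtain ⟨r, hr⟩ := hP (insert p₁ ((fun j => (h j).1) '' Iio i))
      ((mk_insert_le).trans_lt (add_lt_of_lt hreg.aleph0_le
        (mk_image_le.trans_lt ((mk_set_le _).trans_lt hικ)) (one_lt_aleph0.trans hunc))) (by
        rintro x (rfl | ⟨a, ha, rfl⟩) y (rfl | ⟨b, hb, rfl⟩) hxy
        · exact absurd rfl hxy
        · exact Or.inr (hj b hb).1
        · exact Or.inl (hj a ha).1
        · rcases lt_trichotomy a b with h' | h' | h'
          · exact Or.inr ((hj b hb).2.1 a h').1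
          · exact absurd (by rw [h']) hxy
          · exact Or.inl ((hj a ha).2.1 b h').1)
    exact ⟨r, hr _ (mem_insert _ _), fun j hj => hr _ (mem_insert_of_mem _ ⟨j, hj, rfl⟩)⟩
  have hS : ∀ i h q, q ≤ (⟨univ, infinite_univ⟩ : InfSet) → (∀ j < i, R j h q (h j)) →
      ∃ q' ≤ q, ∃ x, R i h q' x := by
    intro i h B _ hj
    obtain ⟨q, hq, hqj⟩ := hchain i h B hj
    obtain ⟨γ, hγ⟩ := bounded hreg (σ := Iio i) ((mk_set_le _).trans_lt hικ)
      (fun j => (h j.1).2)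
    obtain ⟨q', hq', γ', hγ'⟩ := star hreg hunc hP c hno B.inf (hq.trans hp₁)
    have hE' : ∃ F : Finset ℕ, Good F ∧ (Good (Ei i) → F = Ei i) := by
      by_cases hg : Good (Ei i)
      · exact ⟨Ei i, hg, fun _ => rfl⟩
      · exact ⟨∅, hgood_empty, fun h => absurd h hg⟩
    obtain ⟨F, hF, hFE⟩ := hE'
    obtain ⟨r, hr, ξ, hξ, S, hS, hFS⟩ := hF (max γ γ') q' (hq'.trans hq)
    have hi := hγ' r hr ξ ((le_max_right _ _).trans_lt hξ) S hS
    refine ⟨⟨S ∩ B.s, hi⟩, AlmostSub.of_subset inter_subset_right, (r, ξ), ?_, ?_, S, hS,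
      AlmostSub.of_subset inter_subset_left, fun hg => ?_⟩
    · exact hr.trans (hq'.trans hq)
    · intro j hji
      exact ⟨hr.trans (hq'.trans (hqj j hji)),
        (hγ ⟨j, hji⟩).trans ((le_max_left _ _).trans_lt hξ)⟩
    · rw [← hFE hg]
      exact hFS
  have hneX : Nonempty (P × κ.ord.ToType) := ⟨(p, Classical.arbitrary _)⟩
  obtain ⟨B₁, -, h, hh⟩ := exists_thread (p := (⟨univ, infinite_univ⟩ : InfSet)) hR hL hS
    (fun i => distrib_infSet ((mk_set_le _).trans_lt hιh)) (distrib_infSet hιh)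
  -- the final condition
  obtain ⟨p₂, hp₂⟩ := hP (insert p₁ (range fun j => (h j).1))
    ((mk_insert_le).trans_lt (add_lt_of_lt hreg.aleph0_le
      (mk_range_le.trans_lt hικ) (one_lt_aleph0.trans hunc))) (by
      rintro x (rfl | ⟨a, rfl⟩) y (rfl | ⟨b, rfl⟩) hxy
      · exact absurd rfl hxy
      · exact Or.inr (hh b).1
      · exact Or.inl (hh a).1
      · rcases lt_trichotomy a b with h' | h' | h'
        · exact Or.inr ((hh b).2.1 a h').1
        · exact absurd (by rw [h']) hxy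
        · exact Or.inl ((hh a).2.1 b h').1)
  have hp₂1 : p₂ ≤ p₁ := hp₂ _ (mem_insert _ _)
  have hp₂j : ∀ j, p₂ ≤ (h j).1 := fun j => hp₂ _ (mem_insert_of_mem _ ⟨j, rfl⟩)
  have hrow : ∀ i : ι, ∃ S, RowDec c (h i).1 (h i).2 S ∧ AlmostSub B₁.s S ∧
      (Good (Ei i) → (Ei i : Set ℕ) ⊆ S) := fun i => (hh i).2.2
  choose S hSdec hSalm hSE using hrow
  choose m hm using fun i => (hSalm i).exists_bound
  -- domination
  let g : α.ToType → ℕ → ℕ := fun s n =>
    (Finset.range (n + 1)).powerset.sup (fun F => m (toLex (s, code F)))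
  have hg : ∀ s n (F : Finset ℕ), F ⊆ Finset.range (n + 1) →
      m (toLex (s, code F)) ≤ g s n := by
    intro s n F hF
    exact Finset.le_sup (f := fun F => m (toLex (s, code F))) (Finset.mem_powerset.2 hF)
  obtain ⟨B₂, hB₂, hB₂₁, hdom⟩ := dominate hαh B₁.s B₁.inf g
  have hnext : ∀ (F : Finset ℕ) (k : ℕ), ∃ b, Good F → b ∈ B₂ ∧ k < b ∧ Good (insert b F) := by
    intro F k
    by_cases hF : Good F
    · have hfin := hgood_succ F hF
      have hinf : (B₂ \ ({n | ¬ Good (insert n F)} ∪ Iic k)).Infinite :=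
        hB₂.sdiff (hfin.union (finite_Iic k))
      obtain ⟨b, hb, hb'⟩ := hinf.nonempty
      refine ⟨b, fun _ => ⟨hb, ?_, ?_⟩⟩
      · by_contra hcon
        exact hb' (Or.inr (not_lt.1 hcon))
      · by_contra hcon
        exact hb' (Or.inl hcon)
    · exact ⟨0, fun h => absurd h hF⟩
  choose nx hnx using hnext
  let st : ℕ → Finset ℕ × ℕ := fun n => Nat.rec ({nx ∅ 0}, nx ∅ 0)
    (fun _ x => (insert (nx x.1 x.2) x.1, nx x.1 x.2)) n
  have hst : ∀ n, st (n + 1) = (insert (nx (st n).1 (st n).2) (st n).1,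
    nx (st n).1 (st n).2) := fun n => rfl
  have hgoodst : ∀ n, Good (st n).1 := by
    intro n
    induction n with
    | zero => exact (hnx ∅ 0 hgood_empty).2.2
    | succ n ih => rw [hst]; exact (hnx _ _ ih).2.2
  let b : ℕ → ℕ := fun n => (st n).2
  have hbsucc : ∀ n, b (n + 1) = nx (st n).1 (st n).2 := fun n => rfl
  have hbB : ∀ n, b n ∈ B₂ := by
    intro n
    cases n with
    | zero => exact (hnx ∅ 0 hgood_empty).1
    | succ n => rw [hbsucc]; exact (hnx _ _ (hgoodst n)).1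
  have hbmono : StrictMono b :=
    strictMono_nat_of_lt_succ (fun n => by rw [hbsucc]; exact (hnx _ _ (hgoodst n)).2.1)
  have hFmem : ∀ n x, x ∈ (st n).1 ↔ ∃ j ≤ n, x = b j := by
    intro n
    induction n with
    | zero =>
      intro x
      change x ∈ ({nx ∅ 0} : Finset ℕ) ↔ _
      rw [Finset.mem_singleton]
      constructor
      · rintro rfl
        exact ⟨0, le_rfl, rfl⟩
      · rintro ⟨j, hj, rfl⟩
        rw [Nat.le_zero.1 hj]
        rfl
    | succ n ih =>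
      intro x
      rw [hst]
      dsimp only
      rw [Finset.mem_insert, ih]
      constructor
      · rintro (rfl | ⟨j, hj, rfl⟩)
        · exact ⟨n + 1, le_rfl, rfl⟩
        · exact ⟨j, by omega, rfl⟩
      · rintro ⟨j, hj, rfl⟩
        rcases Nat.lt_or_ge j (n + 1) with h' | h'
        · exact Or.inr ⟨j, by omega, rfl⟩
        · have : j = n + 1 := by omega
          subst this
          exact Or.inl rfl
  have hB₃ : (range b).Infinite := infinite_range_of_injective hbmono.injective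
  choose N hN using hdom
  refine ⟨p₂, hp₂1.trans hp₁, Or.inr ?_⟩
  let idx : α.ToType → ι := fun s => toLex (s, code (st (N s)).1)
  have hidx : StrictMono idx := by
    intro s t hst
    rw [Prod.Lex.lt_iff]
    exact Or.inl hst
  refine fHom_of_fun c hB₃ (fun s => (h (idx s)).2) ?_ ?_
  · intro s t hst
    exact ((hh (idx t)).2.1 (idx s) (hidx hst)).2
  · intro s n hn
    refine fMem_mono (hp₂j (idx s)) ((hSdec (idx s) n).1 ?_)
    obtain ⟨j, rfl⟩ := hn
    have hEi : Ei (idx s) = (st (N s)).1 := hcode _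
    by_cases hj : j ≤ N s
    · have hmem : b j ∈ (Ei (idx s) : Set ℕ) := by
        rw [hEi, Finset.mem_coe, hFmem]
        exact ⟨j, hj, rfl⟩
      refine hSE (idx s) ?_ hmem
      rw [hEi]
      exact hgoodst _
    · rw [not_le] at hj
      have hlt : g s (b (N s)) < b j :=
        hN s (b (N s)) (hbB _) (hbmono.le_apply) (b j) (hbB j) (hbmono hj)
      refine hm (idx s) (b j) (hB₂₁ (hbB j)) (le_trans (hg s (b (N s)) _ ?_) hlt.le)
      intro x hx
      obtain ⟨k, hk, rfl⟩ := (hFmem _ _).1 hx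
      rw [Finset.mem_range]
      exact Nat.lt_succ_of_le (hbmono.monotone hk)

/-- The main theorem. -/
theorem main {κ : Cardinal.{0}} (hreg : κ.IsRegular) (hunc : ℵ₀ < κ)
    (hP : ClosedPoset κ P) {α : Ordinal.{0}} (hα : α < κ.ord)
    (h : α.card < hNumber ∨ rNumber < κ) (p : P) : fUnbalanced κ α p := by
  intro c q _
  rcases h with h | h
  · exact main_h hreg hunc hP c q hα h
  · exact main_reaping hreg hunc hP h c q hα

end Pool.Agent.H98.Polar
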