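import Pool.Agent.H98.PolarLuzin

/-!
The Levy poset at a singular cardinal of uncountable cofinality.
-/

open Cardinal Ordinal Set

namespace Pool.Agent.H98.Polar

section Basic

variable {κ ν : Cardinal.{0}}

/-- families of size `< cof κ` are bounded in `κ` -/
theorem bounded' (hcof : κ.ord.cof = ν) {σ : Type} (hσ : #σ < ν)
    (f : σ → κ.ord.ToType) : ∃ γ : κ.ord.ToType, ∀ i, f i < γ := by
  by_contra hcon
  push Not at hcon
  have hc : IsCofinal (range f) := by
    intro γ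
    obtain ⟨i, hi⟩ := hcon γ
    exact ⟨f i, ⟨i, rfl⟩, hi⟩
  have h1 := Order.cof_le hc
  rw [cof_toType, hcof] at h1
  exact absurd (h1.trans mk_range_le) (not_le.2 hσ)

theorem mk_iUnion_lt_of_lt_cof (hcof : κ.ord.cof = ν) (hν : ℵ₀ ≤ ν) (hκ : ν ≤ κ) {σ α : Type}
    (hσ : #σ < ν) (t : σ → Set α) (ht : ∀ i, #(t i) < κ) : #(⋃ i, t i) < κ := by
  refine (mk_iUnion_le t).trans_lt ?_
  refine mul_lt_of_lt (hν.trans hκ) (hσ.trans_le hκ) ?_
  exact Cardinal.iSup_lt_of_lt_cof_ord (by rw [hcof]; exact hσ) ht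

theorem levy_closed' (hcof : κ.ord.cof = ν) (hν : ℵ₀ ≤ ν) (hκ : ν ≤ κ) (μ : Cardinal.{0}) :
    ClosedPoset ν (Levy κ μ) := by
  classical
  intro C hC hch
  let g : κ.ord.ToType → Option μ.ord.ToType := fun ξ =>
    if h : ∃ a, ∃ c ∈ C, c.1 ξ = some a then some (Classical.choose h) else none
  have hdom : {ξ | g ξ ≠ none} ⊆ ⋃ c : C, {ξ | c.1.1 ξ ≠ none} := by
    intro ξ hξ
    simp only [mem_ofPred_eq, g] at hξ
    by_cases h : ∃ a, ∃ c ∈ C, c.1 ξ = some a
    · obtain ⟨a, c, hc, hca⟩ := h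
      refine mem_iUnion.2 ⟨⟨c, hc⟩, ?_⟩
      simp [hca]
    · rw [dif_neg h] at hξ
      exact absurd rfl hξ
  have hcard : #{ξ | g ξ ≠ none} < κ := by
    refine (mk_le_mk_of_subset hdom).trans_lt ?_
    exact mk_iUnion_lt_of_lt_cof hcof hν hκ hC _ (fun c => c.1.2)
  refine ⟨⟨g, hcard⟩, fun c hc ξ a hca => ?_⟩
  change g ξ = some a
  have h : ∃ a, ∃ c ∈ C, c.1 ξ = some a := ⟨a, c, hc, hca⟩
  simp only [g, dif_pos h, Option.some.injEq]
  obtain ⟨c', hc', hc'a⟩ := Classical.choose_spec h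
  rcases hch.total hc hc' with hle | hle
  · have := hle ξ _ hc'a
    rw [hca] at this
    exact (Option.some.inj this).symm
  · have := hle ξ _ hca
    rw [hc'a] at this
    exact (Option.some.inj this)

/-- a cofinal sequence of length `cof κ` -/
theorem exists_cofinal_seq (hcof : κ.ord.cof = ν) :
    ∃ s : ν.ord.ToType → κ.ord.ToType, ∀ γ, ∃ i, γ ≤ s i := by
  obtain ⟨S, hS, hS'⟩ := Order.exists_cof_eq κ.ord.ToType
  rw [cof_toType, hcof] at hS'
  have h1 : #ν.ord.ToType = #S := by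
    rw [mk_toType, card_ord, hS']
  obtain ⟨e⟩ := Cardinal.eq.1 h1
  refine ⟨fun i => (e i).1, fun γ => ?_⟩
  obtain ⟨x, hx, hγx⟩ := hS γ
  exact ⟨e.symm ⟨x, hx⟩, by simpa using hγx⟩

theorem mk_Iio_mk (κ : Cardinal.{0}) (μ : Cardinal.{0}) (h2 : μ.ord < κ.ord) :
    #(Iio (Ordinal.ToType.mk (o := κ.ord) ⟨μ.ord, h2⟩)) = μ := by
  have e : Iio (Ordinal.ToType.mk (o := κ.ord) ⟨μ.ord, h2⟩) ≃
      Iio (⟨μ.ord, h2⟩ : Iio κ.ord) :=
    { toFun := fun x => ⟨Ordinal.ToType.mk.symm x.1, by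
        have := x.2
        rw [mem_Iio] at this ⊢
        rw [← OrderIso.lt_iff_lt (Ordinal.ToType.mk (o := κ.ord))]
        simpa using this⟩
      invFun := fun x => ⟨Ordinal.ToType.mk x.1, by
        have := x.2
        rw [mem_Iio] at this ⊢
        exact (OrderIso.lt_iff_lt _).2 this⟩
      left_inv := fun x => by simp
      right_inv := fun x => by simp }
  have e2 : Iio (⟨μ.ord, h2⟩ : Iio κ.ord) ≃ Iio μ.ord :=
    { toFun := fun x => ⟨x.1.1, x.2⟩
      invFun := fun x => ⟨⟨x.1, lt_trans x.2 h2⟩, x.2⟩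
      left_inv := fun x => by simp
      right_inv := fun x => by simp }
  have h1 := lift_mk_eq'.2 ⟨e.trans e2⟩
  rw [Cardinal.mk_Iio_ordinal, card_ord] at h1
  rw [Cardinal.lift_lift] at h1
  exact Cardinal.lift_injective h1

theorem succ_lt_of_sing (hcof : κ.ord.cof = ν) (hν : ℵ₀ ≤ ν) (hκ : ν < κ)
    {μ : Cardinal.{0}} (hμ : μ < κ) :
    ∃ γ : κ.ord.ToType, μ < #(Iio γ) ∧ ℵ₀ ≤ #(Iio γ) := by
  have h0 : max μ ν < κ := max_lt hμ hκ
  have h1 : Order.succ (max μ ν) < κ := by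
    refine lt_of_le_of_ne (Order.succ_le_of_lt h0) ?_
    intro heq
    have hreg : (Order.succ (max μ ν)).IsRegular :=
      isRegular_succ (hν.trans (le_max_right _ _))
    rw [heq] at hreg
    have h2 := hreg.cof_ord
    rw [hcof] at h2
    exact absurd h2 hκ.ne
  have h2 : (Order.succ (max μ ν)).ord < κ.ord := ord_lt_ord.2 h1
  refine ⟨Ordinal.ToType.mk ⟨(Order.succ (max μ ν)).ord, h2⟩, ?_, ?_⟩
  · rw [mk_Iio_mk]
    exact (le_max_left _ _).trans_lt (Order.lt_succ _)
  · rw [mk_Iio_mk]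
    exact (hν.trans (le_max_right _ _)).trans (Order.le_succ _)

end Basic

section Val

variable {K W M : Type} [LinearOrder K]

/-- the value taken by `h` on most places below `s j` -/
noncomputable def val (s : W → K) (h : K → Option M) (j : W) : Option M := by
  classical
  exact if hx : ∃ a, #{η // η < s j ∧ h η ≠ some a} < #(Iio (s j)) ∧ ℵ₀ ≤ #(Iio (s j)) then
    some (Classical.choose hx) else none

theorem val_eq {s : W → K} {h : K → Option M} {j : W} {a : M} (hinf : ℵ₀ ≤ #(Iio (s j)))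
    (ha : #{η // η < s j ∧ h η ≠ some a} < #(Iio (s j))) : val s h j = some a := by
  classical
  have hx : ∃ a, #{η // η < s j ∧ h η ≠ some a} < #(Iio (s j)) ∧ ℵ₀ ≤ #(Iio (s j)) :=
    ⟨a, ha, hinf⟩
  unfold val
  rw [dif_pos hx]
  have hb := (Classical.choose_spec hx).1
  by_contra hne
  have hne' : Classical.choose hx ≠ a := fun h => hne (by rw [h])
  have hsub : Iio (s j) ⊆ {η | η < s j ∧ h η ≠ some a} ∪
      {η | η < s j ∧ h η ≠ some (Classical.choose hx)} := by
    intro η hη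
    by_cases h1 : h η = some a
    · refine Or.inr ⟨hη, ?_⟩
      rw [h1]
      intro h2
      exact hne' (Option.some.inj h2).symm
    · exact Or.inl ⟨hη, h1⟩
  have h1 := (mk_le_mk_of_subset hsub).trans (mk_union_le _ _)
  exact absurd (h1.trans_lt (add_lt_of_lt hinf ha hb)) (lt_irrefl _)

theorem val_local {s : W → K} {h h' : K → Option M} {j : W} (hh : ∀ η < s j, h η = h' η) :
    val s h j = val s h' j := by
  classical
  have : ∀ a, {η | η < s j ∧ h η ≠ some a} = {η | η < s j ∧ h' η ≠ some a} := by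
    intro a
    ext η
    constructor
    · rintro ⟨h1, h2⟩
      exact ⟨h1, by rw [← hh η h1]; exact h2⟩
    · rintro ⟨h1, h2⟩
      exact ⟨h1, by rw [hh η h1]; exact h2⟩
  have h2 : (fun a => #{η // η < s j ∧ h η ≠ some a} < #(Iio (s j)) ∧ ℵ₀ ≤ #(Iio (s j))) =
      (fun a => #{η // η < s j ∧ h' η ≠ some a} < #(Iio (s j)) ∧ ℵ₀ ≤ #(Iio (s j))) := by
    funext a
    have h3 : #{η // η < s j ∧ h η ≠ some a} = #{η // η < s j ∧ h' η ≠ some a} :=
      congrArg (fun S : Set K => #S) (this a)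
    rw [h3]
  unfold val
  simp only [h2]

end Val

section Sing

variable {κ ν μ : Cardinal.{0}}

/-- `p` is total below all `s j`, `j ≤ i` -/
def Tot (s : ν.ord.ToType → κ.ord.ToType) (i : ν.ord.ToType) (p : Levy κ μ) : Prop :=
  ∀ j ≤ i, ∀ η < s j, p.1 η ≠ none

theorem Tot.mono {s : ν.ord.ToType → κ.ord.ToType} {i : ν.ord.ToType} {p q : Levy κ μ}
    (h : q ≤ p) (hp : Tot s i p) : Tot s i q := by
  intro j hj η hη
  rw [levy_agree h (hp j hj η hη)]
  exact hp j hj η hη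

theorem Tot.le {s : ν.ord.ToType → κ.ord.ToType} {i i' : ν.ord.ToType} {p : Levy κ μ}
    (h : i' ≤ i) (hp : Tot s i p) : Tot s i' p := fun j hj => hp j (hj.trans h)

theorem val_agree {s : ν.ord.ToType → κ.ord.ToType} {i : ν.ord.ToType} {p q : Levy κ μ}
    (h : q ≤ p) (hp : Tot s i p) {j : ν.ord.ToType} (hj : j ≤ i) :
    val s q.1 j = val s p.1 j :=
  val_local (fun η hη => levy_agree h (hp j hj η hη))

theorem mk_Iic_lt (hν : ℵ₀ ≤ ν) (i : ν.ord.ToType) : #(Iic i) < ν := by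
  have hsub : Iic i ⊆ insert i (Iio i) := by
    intro x hx
    rcases (mem_Iic.1 hx).eq_or_lt with h | h
    · exact Or.inl h
    · exact Or.inr h
  refine (mk_le_mk_of_subset hsub).trans_lt ((mk_insert_le).trans_lt ?_)
  exact add_lt_of_lt hν (mk_Iio_toType_ord_lt i) (one_lt_aleph0.trans_le hν)

theorem exists_tot (hcof : κ.ord.cof = ν) (hν : ℵ₀ ≤ ν) (hκ : ν < κ) (hμ : μ ≠ 0)
    (s : ν.ord.ToType → κ.ord.ToType) (p : Levy κ μ) (i : ν.ord.ToType) :
    ∃ q ≤ p, Tot s i q := by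
  obtain ⟨γ, hγ⟩ := bounded' hcof (mk_Iic_lt hν i) (fun j => s j.1)
  obtain ⟨q, hq, h⟩ := exists_total (hν.trans hκ.le) hμ p γ
  exact ⟨q, hq, fun j hj η hη => h η (hη.trans (hγ ⟨j, hj⟩))⟩

theorem exists_val (hcof : κ.ord.cof = ν) (hν : ℵ₀ ≤ ν) (hκ : ν < κ) (hμ : μ ≠ 0)
    {s : ν.ord.ToType → κ.ord.ToType} (hs : ∀ γ, ∃ i, γ ≤ s i) (p : Levy κ μ)
    (a : μ.ord.ToType) : ∃ q ≤ p, ∃ i, Tot s i q ∧ val s q.1 i = some a := by
  classical
  obtain ⟨γ, hγ, hγ'⟩ := succ_lt_of_sing hcof hν hκ p.2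
  obtain ⟨i, hi⟩ := hs γ
  have hle : #(Iio γ) ≤ #(Iio (s i)) := mk_le_mk_of_subset (fun x hx => lt_of_lt_of_le hx hi)
  let g : κ.ord.ToType → Option μ.ord.ToType := fun η =>
    if η < s i ∧ p.1 η = none then some a else p.1 η
  have hcard : #{η // g η ≠ none} < κ := by
    have hsub : {η | g η ≠ none} ⊆ {η | p.1 η ≠ none} ∪ Iio (s i) := by
      intro η hη
      by_cases h : η < s i
      · exact Or.inr h
      · refine Or.inl ?_
        have : g η = p.1 η := if_neg (fun h' => h h'.1)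
        exact fun h0 => hη (this.trans h0)
    refine (mk_le_mk_of_subset hsub).trans_lt ((mk_union_le _ _).trans_lt ?_)
    exact add_lt_of_lt (hν.trans hκ.le) p.2 (mk_Iio_toType_ord_lt (s i))
  let q1 : Levy κ μ := ⟨g, hcard⟩
  have hq1 : q1 ≤ p := by
    intro η b hb
    change g η = some b
    have : g η = p.1 η := if_neg (fun h' => by rw [hb] at h'; exact absurd h'.2 (by simp))
    rw [this]
    exact hb
  have hval : val s g i = some a := by
    refine val_eq (hγ'.trans hle) ?_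
    refine lt_of_le_of_lt ?_ (hγ.trans_le hle)
    refine mk_subtype_mono ?_
    rintro η ⟨h1, h2⟩ h3
    exact h2 (if_pos ⟨h1, h3⟩)
  have htot : ∀ η < s i, g η ≠ none := by
    intro η hη
    by_cases h : p.1 η = none
    · have : g η = some a := if_pos ⟨hη, h⟩
      rw [this]
      simp
    · have : g η = p.1 η := if_neg (fun h' => h h'.2)
      rw [this]
      exact h
  obtain ⟨q, hq, hqt⟩ := exists_tot hcof hν hκ hμ s q1 i
  refine ⟨q, hq.trans hq1, i, hqt, ?_⟩
  rw [← hval]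
  exact val_local (fun η hη => levy_agree hq (htot η hη))

variable {Γ : Type} [Nonempty Γ] {X : Γ → Set (Set ℕ)} {real : μ.ord.ToType → Set ℕ}
  {s : ν.ord.ToType → κ.ord.ToType} {inj : κ.ord.ToType → μ.ord.ToType}

/-- `i` is the first place where the value is `b` -/
def First (s : ν.ord.ToType → κ.ord.ToType) (b : μ.ord.ToType) (i : ν.ord.ToType)
    (p : Levy κ μ) : Prop :=
  Tot s i p ∧ val s p.1 i = some b ∧ ∀ j < i, val s p.1 j ≠ some b

theorem First.mono {b : μ.ord.ToType} {i : ν.ord.ToType} {p q : Levy κ μ} (h : q ≤ p)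
    (hp : First s b i p) : First s b i q := by
  refine ⟨hp.1.mono h, ?_, fun j hj => ?_⟩
  · rw [val_agree h hp.1 le_rfl]
    exact hp.2.1
  · rw [val_agree h hp.1 hj.le]
    exact hp.2.2 j hj

theorem First.unique {b : μ.ord.ToType} {i i' : ν.ord.ToType} {p : Levy κ μ}
    (h : First s b i p) (h' : First s b i' p) : i = i' := by
  rcases lt_trichotomy i i' with hlt | heq | hlt
  · exact absurd h.2.1 (h'.2.2 i hlt)
  · exact heq
  · exact absurd h'.2.1 (h.2.2 i' hlt)

theorem exists_first (hcof : κ.ord.cof = ν) (hν : ℵ₀ ≤ ν) (hκ : ν < κ) (hμ : μ ≠ 0)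
    (hs : ∀ γ, ∃ i, γ ≤ s i) (p : Levy κ μ) (b : μ.ord.ToType) :
    ∃ q ≤ p, ∃ i, First s b i q := by
  obtain ⟨q, hq, i, hi, hv⟩ := exists_val hcof hν hκ hμ hs p b
  obtain ⟨i', hi', hmin⟩ : ∃ i', val s q.1 i' = some b ∧ ∀ j < i', val s q.1 j ≠ some b := by
    have hwf : WellFounded (fun x y : ν.ord.ToType => x < y) := wellFounded_lt
    have hne : {j | val s q.1 j = some b}.Nonempty := ⟨i, hv⟩
    refine ⟨hwf.min _ hne, hwf.min_mem _ hne, fun j hj hj' => ?_⟩
    exact hwf.not_lt_min _ (show j ∈ {j | val s q.1 j = some b} from hj') hj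
  have hle : i' ≤ i := by
    by_contra hcon
    exact hmin i (not_le.1 hcon) hv
  exact ⟨q, hq, i', hi.le hle, hi', hmin⟩

/-- the name of the bad colouring -/
def badName' (X : Γ → Set (Set ℕ)) (real : μ.ord.ToType → Set ℕ)
    (s : ν.ord.ToType → κ.ord.ToType) (inj : κ.ord.ToType → μ.ord.ToType) :
    SetName (Levy κ μ) (κ.ord.ToType × ℕ) :=
  fun x => {p | ∃ i, First s (inj x.1) i p ∧ x.2 ∈ (pick X real (val s p.1) i).2}

theorem mem_badName' {p : Levy κ μ} {ξ : κ.ord.ToType} {i : ν.ord.ToType}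
    (hp : First s (inj ξ) i p) {n : ℕ} :
    fMem (ξ, n) (badName' X real s inj) p ↔ n ∈ (pick X real (val s p.1) i).2 := by
  constructor
  · intro h
    obtain ⟨r, hr, t, ⟨i', hi', htn⟩, hrt⟩ := h p le_rfl
    dsimp only at hi' htn
    have h0 : i = i' := (hp.mono hr).unique (hi'.mono hrt)
    subst h0
    have h1 : pick X real (val s p.1) i = pick X real (val s t.1) i := by
      refine pick_local X real (fun η hη => ?_)
      rw [← val_agree hr hp.1 hη.le, ← val_agree hrt hi'.1 hη.le]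
    rw [h1]
    exact htn
  · intro h q hq
    exact ⟨q, le_rfl, p, ⟨i, hp, h⟩, hq⟩

end Sing

/-- for infinite `κ` of cofinality `ν`, if fewer than `ν` reals are always split by one real,
there is a colouring in the extension without homogeneous sets of size `ν` -/
theorem no_hom {κ ν : Cardinal.{0}} (hcof : κ.ord.cof = ν) (hν : ℵ₀ < ν) (hκ : ν < κ)
    (hκc : κ ≤ continuum.{0}) (hr : ν ≤ rNumber) :
    ∃ c : SetName (Levy κ continuum.{0}) (κ.ord.ToType × ℕ),
      ∀ (β : Ordinal.{0}) (ε : Bool), ν ≤ β.card → ∀ r, ¬ fHom κ β ε c r := by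
  classical
  have hP : ClosedPoset ν (Levy κ continuum.{0}) := levy_closed' hcof hν.le hκ.le _
  have hDN : Distrib (Levy κ continuum.{0}) ℕ :=
    distrib_of_closed hν.le hP (by rw [mk_nat]; exact hν)
  -- the splitting system
  let X : ν.ord.ToType → Set (Set ℕ) := fun _ => Set.univ
  have hX : LuzinSplitting ν (Order.succ ν) X := by
    constructor
    · intro B _
      refine (mk_subtype_le _).trans_lt ?_
      rw [mk_toType, card_ord]
      exact Order.lt_succ ν
    · intro Δ hΔ F hF hFi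
      obtain ⟨γ, hγ⟩ : ∃ γ, γ ∉ Δ := by
        by_contra hcon
        push Not at hcon
        have h1 : Δ = Set.univ := eq_univ_of_forall hcon
        rw [h1, mk_univ, mk_toType, card_ord] at hΔ
        exact lt_irrefl _ hΔ
      have hnot : ¬ Reaping F := by
        intro hR
        have : #F ∉ {μ : Cardinal.{0} | ∃ C : Set (Set ℕ), #C = μ ∧ Reaping C} :=
          notMem_of_lt_csInf' (hF.trans_le hr)
        exact this ⟨F, rfl, hR⟩
      unfold Reaping at hnot
      push Not at hnot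
      obtain ⟨x, hx⟩ := hnot hFi
      refine ⟨γ, hγ, x, mem_univ _, fun B hB => ?_⟩
      obtain ⟨h1, h2⟩ := hx B hB
      refine ⟨?_, h1⟩
      unfold AlmostSub at h2
      rw [sdiff_compl] at h2
      exact h2
  have hΓ : Nonempty ν.ord.ToType := by
    rw [nonempty_toType_iff]
    simpa using (aleph0_pos.trans hν).ne'
  -- a surjection onto the infinite sets
  obtain ⟨real, hreal, hsurj⟩ : ∃ real : (continuum.{0}).ord.ToType → Set ℕ,
      (∀ a, (real a).Infinite) ∧ ∀ B : Set ℕ, B.Infinite → ∃ a, real a = B := by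
    have h1 : #{B : Set ℕ // B.Infinite} ≤ #(continuum.{0}).ord.ToType := by
      rw [mk_toType, card_ord]
      refine (mk_subtype_le _).trans ?_
      rw [mk_set, mk_nat, two_power_aleph0]
    have hne : Nonempty {B : Set ℕ // B.Infinite} := ⟨⟨Set.univ, infinite_univ⟩⟩
    obtain ⟨f⟩ := (le_def _ _).1 h1
    refine ⟨fun a => (Function.invFun f a).1, fun a => (Function.invFun f a).2, fun B hB => ?_⟩
    refine ⟨f ⟨B, hB⟩, ?_⟩
    have h2 := Function.leftInverse_invFun f.injective ⟨B, hB⟩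
    exact congrArg Subtype.val h2
  obtain ⟨inj⟩ : Nonempty (κ.ord.ToType ↪ (continuum.{0}).ord.ToType) := by
    rw [← le_def, mk_toType, mk_toType, card_ord, card_ord]
    exact hκc
  obtain ⟨s, hs⟩ := exists_cofinal_seq hcof
  let c : SetName (Levy κ continuum.{0}) (κ.ord.ToType × ℕ) := badName' X real s inj
  refine ⟨c, fun β ε hβ r hr => ?_⟩
  obtain ⟨r1, hr1, G, hr1'⟩ := hr r le_rfl
  obtain ⟨r2, hr2, B, hG, hB, hhom⟩ := hr1' r1 le_rfl
  obtain ⟨r3, hr3, B₀, hB₀, hB₀'⟩ := decide_infinite hDN hB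
  obtain ⟨a, ha⟩ := hsurj B₀ hB₀
  obtain ⟨r4, hr4, i₀, hi₀, hv₀⟩ := exists_val hcof hν.le hκ continuum_ne_zero hs r3 a
  let E : Set κ.ord.ToType := {ξ | ∃ j ≤ i₀, val s r4.1 j = some (inj ξ)}
  have hE : #E < ν := by
    have h1 : ∀ ξ : E, ∃ j : Iic i₀, val s r4.1 j.1 = some (inj ξ.1) := by
      rintro ⟨ξ, j, hj, h⟩
      exact ⟨⟨j, hj⟩, h⟩
    choose f hf using h1
    have hfi : Function.Injective f := by
      intro x y hxy
      have h2 := hf x
      rw [hxy, hf y] at h2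
      exact Subtype.ext (inj.injective (Option.some.inj h2)).symm
    exact (mk_le_of_injective hfi).trans_lt (mk_Iic_lt hν.le i₀)
  -- some element of the homogeneous set is outside `E`
  have hout : ∃ t : β.ToType, ∃ ξ, ξ ∉ E ∧ ∃ q ≤ r4, fMem (t, ξ) G q := by
    by_contra hcon
    push Not at hcon
    obtain ⟨r5, hr5, H⟩ := (distrib_of_closed hν.le hP hE) r4
      (fun (ξ : E) q => (∃ t, fMem (t, ξ.1) G q) ∨ (∀ t, fNot (fMem (t, ξ.1) G) q))
      (fun ξ q q' hqq' h => by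
        rcases h with ⟨t, ht⟩ | h
        · exact Or.inl ⟨t, fMem_mono hqq' ht⟩
        · exact Or.inr (fun t => fNot_mono hqq' (h t)))
      (fun ξ q _ => by
        by_cases h : ∃ q' ≤ q, ∃ t, fMem (t, ξ.1) G q'
        · obtain ⟨q', hq', t, hm⟩ := h
          exact ⟨q', hq', Or.inl ⟨t, hm⟩⟩
        · exact ⟨q, le_rfl, Or.inr (fun t r hr hm => h ⟨r, hr, t, hm⟩)⟩)
    have hne : Nonempty β.ToType := by
      rw [nonempty_toType_iff]
      rintro rfl
      rw [Ordinal.card_zero] at hβ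
      exact absurd (hν.le.trans hβ) (not_le.2 aleph0_pos)
    let f : E → β.ToType := fun ξ =>
      if h : ∃ t, fMem (t, ξ.1) G r5 then Classical.choose h else Classical.arbitrary _
    obtain ⟨t, ht⟩ : ∃ t, t ∉ range f := by
      by_contra hcon'
      push Not at hcon'
      have h1 : range f = Set.univ := eq_univ_of_forall hcon'
      have h2 : #(range f) < ν := mk_range_le.trans_lt hE
      rw [h1, mk_univ, mk_toType] at h2
      exact absurd hβ (not_le.2 h2)
    obtain ⟨q, hq, ξ, hqξ⟩ := hG.1 t r5 (hr5.trans (hr4.trans hr3))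
    have hξE : ξ ∈ E := by
      by_contra h
      exact hcon t ξ h q (hq.trans hr5) hqξ
    rcases H ⟨ξ, hξE⟩ with h | h
    · have h1 := Classical.choose_spec h
      have h2 : f ⟨ξ, hξE⟩ = Classical.choose h := dif_pos h
      rw [← h2] at h1
      have hle : q ≤ r2 := hq.trans (hr5.trans (hr4.trans hr3))
      have h3 := hG.2 (f ⟨ξ, hξE⟩) t ξ ξ q hle (fMem_mono hq h1) q le_rfl hqξ
      have h4 := hG.2 t (f ⟨ξ, hξE⟩) ξ ξ q hle hqξ q le_rfl (fMem_mono hq h1)
      rcases lt_trichotomy t (f ⟨ξ, hξE⟩) with h5 | h5 | h5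
      · exact absurd (h4.1 h5) (lt_irrefl _)
      · exact ht ⟨_, h5.symm⟩
      · exact absurd (h3.1 h5) (lt_irrefl _)
    · exact h t q hq hqξ
  obtain ⟨t, ξ, hξE, q, hq, hqG⟩ := hout
  obtain ⟨q', hq', i, hi⟩ := exists_first hcof hν.le hκ continuum_ne_zero hs q (inj ξ)
  have hlt : i₀ < i := by
    by_contra hcon
    rw [not_lt] at hcon
    refine hξE ⟨i, hcon, ?_⟩
    rw [← val_agree (hq'.trans hq) hi₀ hcon]
    exact hi.2.1
  have hv' : val s q'.1 i₀ = some a := by
    rw [val_agree (hq'.trans hq) hi₀ le_rfl]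
    exact hv₀
  have hspl := (pick_spec hν.le hX real hreal (val s q'.1) i).2.1 i₀ a hlt hv'
  rw [ha] at hspl
  have hle3 : q' ≤ r3 := hq'.trans (hq.trans hr4)
  cases ε with
  | false =>
    obtain ⟨n, hnB, hnp⟩ := hspl.1.nonempty
    have h1 : fMem (ξ, n) c q' := (mem_badName' hi).2 hnp
    have h2 := hhom t ξ n q' (hle3.trans hr3) (fMem_mono hq' hqG) q' le_rfl
      (fMem_mono hle3 (hB₀' n hnB))
    simp only [Bool.false_eq_true, if_false] at h2
    exact h2 q' le_rfl h1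
  | true =>
    obtain ⟨n, hnB, hnp⟩ := hspl.2.nonempty
    have h2 := hhom t ξ n q' (hle3.trans hr3) (fMem_mono hq' hqG) q' le_rfl
      (fMem_mono hle3 (hB₀' n hnB))
    simp only [if_true] at h2
    exact hnp ((mem_badName' hi).1 h2)

end Pool.Agent.H98.Polar
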