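import Pool.Agent.H98.PolarSing
import Pool.Agent.H98.PolarLuzin2

/-!
The splitting number, the strong relation below it, and `ℵ₁ ≤ r`.
-/

open Cardinal Ordinal Set

namespace Pool.Agent.H98.Polar

/-- The splitting number `s`: the least cardinality of a family `S` of subsets of `ω` such that
every infinite `B ⊆ ω` is split (meets both `x` and its complement in an infinite set) by some
`x ∈ S`. -/
noncomputable def sNumber : Cardinal.{0} :=
  sInf {μ | ∃ S : Set (Set ℕ), #S = μ ∧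
    ∀ B : Set ℕ, B.Infinite → ∃ x ∈ S, (B ∩ x).Infinite ∧ (B \ x).Infinite}

/-- The strong relation `(κ, ω) → (κ, ω)^{1,1}_2`: for every colouring of `κ × ω` by two colours
there are `A ⊆ κ` of size `κ` and an infinite `B ⊆ ω` with constant colour on `A × B`. -/
def StrongRelation (κ : Cardinal.{0}) : Prop :=
  ∀ c : κ.ord.ToType → ℕ → Bool, ∃ (A : Set κ.ord.ToType) (B : Set ℕ) (ε : Bool),
    #A = κ ∧ B.Infinite ∧ ∀ ξ ∈ A, ∀ n ∈ B, c ξ n = ε

theorem strong_of_lt_s {κ : Cardinal.{0}} (hcof : ℵ₀ < κ.ord.cof) (hκ : κ < sNumber) :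
    StrongRelation κ := by
  classical
  intro c
  have hcofle : κ.ord.cof ≤ κ := by
    have := Ordinal.cof_le_card κ.ord
    rwa [card_ord] at this
  have hinf : ℵ₀ < κ := hcof.trans_le hcofle
  let F : κ.ord.ToType → Set ℕ := fun ξ => {n | c ξ n = true}
  have hnot : ¬ ∀ B : Set ℕ, B.Infinite → ∃ x ∈ range F, (B ∩ x).Infinite ∧ (B \ x).Infinite := by
    intro h
    have h1 : #(range F) ∉ {μ : Cardinal.{0} | ∃ S : Set (Set ℕ), #S = μ ∧
        ∀ B : Set ℕ, B.Infinite → ∃ x ∈ S, (B ∩ x).Infinite ∧ (B \ x).Infinite} := by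
      refine notMem_of_lt_csInf' (lt_of_le_of_lt mk_range_le ?_)
      rw [mk_toType, card_ord]
      exact hκ
    exact h1 ⟨range F, rfl, h⟩
  push Not at hnot
  obtain ⟨B, hB, hBF⟩ := hnot
  have hex : ∀ ξ, ∃ x : Bool × ℕ, ∀ n ∈ B, x.2 ≤ n → c ξ n = x.1 := by
    intro ξ
    by_cases h : (B ∩ F ξ).Infinite
    · have h1 : (B \ F ξ).Finite := hBF (F ξ) ⟨ξ, rfl⟩ h
      obtain ⟨m, hm⟩ := h1.bddAbove
      refine ⟨(true, m + 1), fun n hn hmn => ?_⟩
      by_contra hcon
      have : n ≤ m := hm ⟨hn, hcon⟩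
      dsimp only at hmn
      omega
    · obtain ⟨m, hm⟩ := (not_infinite.1 h).bddAbove
      refine ⟨(false, m + 1), fun n hn hmn => ?_⟩
      by_contra hcon
      have h2 : c ξ n = true := by simpa using hcon
      have : n ≤ m := hm ⟨hn, h2⟩
      dsimp only at hmn
      omega
  choose x hx using hex
  -- one pair occurs `κ` many times
  obtain ⟨y, hy⟩ : ∃ y : Bool × ℕ, κ ≤ #{ξ | x ξ = y} := by
    by_contra hcon
    push Not at hcon
    have h1 : #(⋃ y : Bool × ℕ, {ξ | x ξ = y}) < κ :=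
      mk_iUnion_lt_of_lt_cof (ν := κ.ord.cof) rfl hcof.le hcofle
        (lt_of_le_of_lt (mk_le_aleph0) hcof) _ hcon
    have h2 : (⋃ y : Bool × ℕ, {ξ | x ξ = y}) = Set.univ :=
      eq_univ_of_forall (fun ξ => mem_iUnion.2 ⟨x ξ, rfl⟩)
    rw [h2, mk_univ, mk_toType, card_ord] at h1
    exact lt_irrefl _ h1
  refine ⟨{ξ | x ξ = y}, B \ Iio y.2, y.1, le_antisymm ?_ hy, ?_, ?_⟩
  · refine (mk_set_le _).trans ?_
    rw [mk_toType, card_ord]
  · exact hB.sdiff (finite_Iio _)
  · rintro ξ hξ n ⟨hn, hn'⟩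
    have h1 : x ξ = y := hξ
    rw [← h1]
    refine hx ξ n hn ?_
    rw [h1]
    exact not_lt.1 hn'

theorem aleph_one_le_rNumber : ℵ₁ ≤ rNumber := by
  refine le_csInf ?_ ?_
  · refine ⟨#{B : Set ℕ | B.Infinite}, {B : Set ℕ | B.Infinite}, rfl, fun B hB => hB, ?_⟩
    intro S
    by_cases h : S.Infinite
    · exact ⟨S, h, Or.inl (by simp [AlmostSub])⟩
    · refine ⟨Sᶜ, ?_, Or.inr (by simp [AlmostSub])⟩
      exact (not_infinite.1 h).infinite_compl
  · rintro μ ⟨C, rfl, hC, hC'⟩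
    by_contra hcon
    rw [not_le] at hcon
    have hcount : C.Countable := by
      rw [← Cardinal.le_aleph0_iff_set_countable]
      rw [← succ_aleph0] at hcon
      exact Order.lt_succ_iff.1 hcon
    have hres : (⋂ B ∈ C, {y | (B ∩ sp 0 y).Infinite ∧ (B \ sp 0 y).Infinite}) ∈
        residual (ℕ → ℕ) := by
      rw [countable_bInter_mem hcount]
      exact fun B hB => hit_residual 0 (hC B hB)
    obtain ⟨y, hy⟩ := (dense_of_mem_residual hres).nonempty
    obtain ⟨B, hB, h⟩ := hC' (sp 0 y)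
    have h1 := mem_iInter₂.1 hy B hB
    rcases h with h | h
    · exact h1.2 h
    · unfold AlmostSub at h
      rw [sdiff_compl] at h
      exact h1.1 h

end Pool.Agent.H98.Polar
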